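import Mathlib
import Pool.Agent.H72.Lib.S8.H789R2.FR.Defs
import Pool.Agent.H72.Lib.S8.H438R2.BR.JDef
set_option autoImplicit false

/-! # Product densities on the sphere: definitions -/

namespace Pool.Agent.H438R2.PD

open MeasureTheory Set Complex
open scoped ENNReal RealInnerProductSpace
open Pool.Agent.H789R2.FR (E sg)
open Pool.Agent.H438R2.BR (J)

/-- extension operator of the parabola `{(u, u^2) : |u| < 1}` -/
noncomputable def E1 (a : ℝ → ℂ) (ξ l : ℝ) : ℂ :=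
  ∫ u in Ioo (-1 : ℝ) 1, a u * Complex.exp (((l * u ^ 2 - ξ * u : ℝ) : ℂ) * I)

/-- bilinear piece of `E1 a ^ 2`: `s = u + v`, `d = u - v`, `2^(-k) < d ≤ 2 * 2^(-k)` -/
noncomputable def B (a : ℝ → ℂ) (k : ℕ) (ξ l : ℝ) : ℂ :=
  ∫ s in Ioo (-2 : ℝ) 2, ∫ d in Ioc ((1 / 2 : ℝ) ^ k) (2 * (1 / 2 : ℝ) ^ k),
    a ((s + d) / 2) * a ((s - d) / 2) *
      Complex.exp (((l * ((s ^ 2 + d ^ 2) / 2) - ξ * s : ℝ) : ℂ) * I)

/-- the tensor product of functions of one variable -/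
noncomputable def ten {m : ℕ} (a : Fin m → ℝ → ℂ) (x : E m) : ℂ := ∏ j, a j (x j)

/-- the density of the image of `ten a (x) e^{-i x.ξ} dx` under `x ↦ |x|^2` -/
noncomputable def hh {m : ℕ} (a : Fin m → ℝ → ℂ) (ξ : E m) (w : ℝ) : ℂ :=
  ((w ^ (((m : ℝ) - 2) / 2) / 2 : ℝ) : ℂ) *
    ∫ u, ten a (Real.sqrt w • u) *
      Complex.exp (-((⟪Real.sqrt w • u, ξ⟫ : ℝ) : ℂ) * I) ∂(sg m)

/-- first block of coordinates -/
noncomputable def P1 (m d : ℕ) (z : E (m + d)) : E m := WithLp.toLp 2 (fun i => z (Fin.castAdd d i))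

/-- second block of coordinates -/
noncomputable def P2 (m d : ℕ) (z : E (m + d)) : E d := WithLp.toLp 2 (fun i => z (Fin.natAdd m i))

end Pool.Agent.H438R2.PD
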