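import Mathlib
import Pool.Agent.H72.Lib.S8.H438R2.PD.Defs
import Pool.Agent.H72.Lib.S8.H438R2.BR.T11
import Pool.Agent.H72.Lib.S8.H438R2.BR.T7
set_option autoImplicit false

/-! # A8: representation of the Fourier transform of a product density -/

namespace Pool.Agent.H438R2.PD

open MeasureTheory Set Complex
open scoped ENNReal RealInnerProductSpace
open Pool.Agent.H789R2.FR (E sg)
open Pool.Agent.H438R2.BR (J)

namespace A8

theorem P1_J {m d : ℕ} (x : E m) (y : E d) : P1 m d (J x y) = x := by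
  unfold P1 J
  ext i
  simp [Fin.append_left]

theorem P2_J {m d : ℕ} (x : E m) (y : E d) : P2 m d (J x y) = y := by
  unfold P2 J
  ext i
  simp [Fin.append_right]

theorem P1_meas (m d : ℕ) : Measurable (P1 m d) := by
  unfold P1
  have : Continuous fun z : E (m + d) => (WithLp.toLp 2 (fun i => z (Fin.castAdd d i)) : E m) := by
    fun_prop
  exact this.measurable

theorem P2_meas (m d : ℕ) : Measurable (P2 m d) := by
  unfold P2
  have : Continuous fun z : E (m + d) => (WithLp.toLp 2 (fun i => z (Fin.natAdd m i)) : E d) := by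
    fun_prop
  exact this.measurable

theorem ten_meas {m : ℕ} (a : Fin m → ℝ → ℂ) (ha : ∀ j, Measurable (a j)) : Measurable (ten a) := by
  unfold ten
  refine Finset.measurable_fun_prod _ fun j _ => ?_
  have : Continuous fun x : E m => x j := by fun_prop
  exact (ha j).comp this.measurable

theorem ten_le {m : ℕ} (a : Fin m → ℝ → ℂ) (M : ℝ) (hM : ∀ j u, ‖a j u‖ ≤ M) (x : E m) :
    ‖ten a x‖ ≤ M ^ m := by
  unfold ten
  rw [norm_prod]
  calc ∏ j, ‖a j (x j)‖ ≤ ∏ _j : Fin m, M :=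
        Finset.prod_le_prod (fun j _ => norm_nonneg _) (fun j _ => hM j _)
    _ = M ^ m := by simp

theorem norm_e {V : Type*} [NormedAddCommGroup V] [InnerProductSpace ℝ V] (x z : V) :
    ‖Complex.exp (-((⟪x, z⟫ : ℝ) : ℂ) * I)‖ = 1 := by
  have h2 : -((⟪x, z⟫ : ℝ) : ℂ) * I = ((-⟪x, z⟫ : ℝ) : ℂ) * I := by push_cast; ring
  rw [h2]
  exact Complex.norm_exp_ofReal_mul_I _

/-- the inner integral of the first block -/
noncomputable def IA {m : ℕ} (a : Fin m → ℝ → ℂ) (x : E m) (c : ℝ) : ℂ :=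
  ∫ u, ten a (c • u) * Complex.exp (-((⟪c • u, x⟫ : ℝ) : ℂ) * I) ∂(sg m)

/-- the inner integral of the second block -/
noncomputable def IB {d : ℕ} (b : E d → ℂ) (y : E d) (s : ℝ) : ℂ :=
  ∫ v, b (s • v) * Complex.exp (-((⟪s • v, y⟫ : ℝ) : ℂ) * I) ∂(sg d)

theorem IA_meas {m : ℕ} (a : Fin m → ℝ → ℂ) (ha : ∀ j, Measurable (a j)) (x : E m) :
    Measurable (IA a x) := by
  unfold IA
  have h : Measurable (fun p : ℝ × E m => ten a (p.1 • p.2) *
      Complex.exp (-((⟪p.1 • p.2, x⟫ : ℝ) : ℂ) * I)) := by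
    apply Measurable.mul
    · exact (ten_meas a ha).comp (measurable_fst.smul measurable_snd)
    · have : Continuous fun p : ℝ × E m => Complex.exp (-((⟪p.1 • p.2, x⟫ : ℝ) : ℂ) * I) := by
        fun_prop
      exact this.measurable
  exact (h.stronglyMeasurable.integral_prod_right' (ν := sg m)).measurable

theorem IA_le {m : ℕ} (a : Fin m → ℝ → ℂ) (M : ℝ) (hM : ∀ j u, ‖a j u‖ ≤ M) (x : E m) (c : ℝ) :
    ‖IA a x c‖ ≤ M ^ m * (sg m).real univ := by
  unfold IA
  refine (norm_integral_le_of_norm_le_const (C := M ^ m)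
    (Filter.Eventually.of_forall fun u => ?_))
  rw [norm_mul, norm_e, mul_one]
  exact ten_le a M hM _

theorem hh_eq {m : ℕ} (a : Fin m → ℝ → ℂ) (x : E m) (w : ℝ) :
    hh a x w = ((w ^ (((m : ℝ) - 2) / 2) / 2 : ℝ) : ℂ) * IA a x (Real.sqrt w) := rfl

theorem hh_meas' {m : ℕ} (a : Fin m → ℝ → ℂ) (ha : ∀ j, Measurable (a j)) (x : E m) :
    Measurable (hh a x) := by
  have h1 : Measurable fun w : ℝ => ((w ^ (((m : ℝ) - 2) / 2) / 2 : ℝ) : ℂ) := by
    fun_prop
  exact h1.mul ((IA_meas a ha x).comp Real.continuous_sqrt.measurable)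

theorem hh_cos {m : ℕ} (hm : 2 ≤ m) (a : Fin m → ℝ → ℂ) (x : E m) {c : ℝ} (hc : 0 < c) :
    2 * hh a x (c ^ 2) = ((c ^ (m - 2) : ℝ) : ℂ) * IA a x c := by
  rw [hh_eq, Real.sqrt_sq hc.le]
  have h1 : (c ^ 2) ^ (((m : ℝ) - 2) / 2) = c ^ (m - 2) := by
    rw [← Real.rpow_natCast c 2, ← Real.rpow_mul hc.le, ← Real.rpow_natCast c (m - 2),
      Nat.cast_sub hm]
    congr 1
    push_cast
    ring
  rw [h1]
  push_cast
  ring

theorem hh_le {m : ℕ} (hm : 2 ≤ m) (a : Fin m → ℝ → ℂ) (M : ℝ) (hM : ∀ j u, ‖a j u‖ ≤ M) (x : E m)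
    {w : ℝ} (hw0 : 0 ≤ w) (hw1 : w ≤ 1) : ‖hh a x w‖ ≤ 1 / 2 * (M ^ m * (sg m).real univ) := by
  rw [hh_eq, norm_mul]
  refine mul_le_mul ?_ (IA_le a M hM x _) (norm_nonneg _) (by norm_num)
  rw [Complex.norm_real, Real.norm_eq_abs]
  have h2 : 0 ≤ ((m : ℝ) - 2) / 2 := by
    have : (2 : ℝ) ≤ m := by exact_mod_cast hm
    linarith
  have h3 : w ^ (((m : ℝ) - 2) / 2) ≤ 1 := Real.rpow_le_one hw0 hw1 h2
  have h4 : 0 ≤ w ^ (((m : ℝ) - 2) / 2) := Real.rpow_nonneg hw0 _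
  rw [abs_of_nonneg (by positivity)]
  linarith

/-- change of variables `r = sin θ` -/
theorem subst_sin (g : ℝ → ℂ) : ∫ r in Ioo (0 : ℝ) 1, g r =
    ∫ θ in BR.Q, ((Real.cos θ : ℝ) : ℂ) * g (Real.sin θ) := by
  have himg : Real.sin '' BR.Q = Ioo (0 : ℝ) 1 := by
    unfold BR.Q
    ext r
    constructor
    · rintro ⟨θ, hθ, rfl⟩
      refine ⟨Real.sin_pos_of_pos_of_lt_pi hθ.1 (by linarith [hθ.2, Real.pi_pos]), ?_⟩
      have h1 : Real.sin θ < Real.sin (Real.pi / 2) :=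
        Real.sin_lt_sin_of_lt_of_le_pi_div_two (by linarith [hθ.1, Real.pi_pos]) le_rfl hθ.2
      rwa [Real.sin_pi_div_two] at h1
    · intro hr
      refine ⟨Real.arcsin r, ⟨Real.arcsin_pos.2 hr.1, Real.arcsin_lt_pi_div_two.2 hr.2⟩, ?_⟩
      exact Real.sin_arcsin (by linarith [hr.1]) hr.2.le
  have hinj : InjOn Real.sin BR.Q := by
    unfold BR.Q
    intro θ hθ θ' hθ' h
    exact Real.injOn_sin ⟨by linarith [hθ.1, Real.pi_pos], hθ.2.le⟩
      ⟨by linarith [hθ'.1, Real.pi_pos], hθ'.2.le⟩ h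
  have h := integral_image_eq_integral_abs_deriv_smul (s := BR.Q) (f := Real.sin) (f' := Real.cos)
    (by unfold BR.Q; exact measurableSet_Ioo)
    (fun θ _ => (Real.hasDerivAt_sin θ).hasDerivWithinAt) hinj g
  rw [himg] at h
  rw [h]
  refine setIntegral_congr_fun (by unfold BR.Q; exact measurableSet_Ioo) fun θ hθ => ?_
  unfold BR.Q at hθ
  have hcos : 0 < Real.cos θ :=
    Real.cos_pos_of_mem_Ioo ⟨by linarith [hθ.1, Real.pi_pos], hθ.2⟩
  rw [abs_of_pos hcos, Complex.real_smul]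

/-- the left side in bipolar coordinates -/
theorem lhs (m d : ℕ) (hm : 2 ≤ m) (hd : 1 ≤ d) (a : Fin m → ℝ → ℂ) (b : E d → ℂ) (M K : ℝ)
    (ha : ∀ j, Measurable (a j)) (hb : Measurable b) (hM : ∀ j u, ‖a j u‖ ≤ M)
    (hK : ∀ y, ‖b y‖ ≤ K) (x : E m) (y : E d) :
    ∫ z, Complex.exp (-((⟪J x y, z⟫ : ℝ) : ℂ) * I) * (ten a (P1 m d z) * b (P2 m d z))
      ∂(sg (m + d)) =
    ∫ θ in BR.Q, (((Real.cos θ) ^ (m - 1) * (Real.sin θ) ^ (d - 1) : ℝ) : ℂ) *
      (IA a x (Real.cos θ) * IB b y (Real.sin θ)) := by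
  set f : E (m + d) → ℂ := fun z => Complex.exp (-((⟪J x y, z⟫ : ℝ) : ℂ) * I) *
    (ten a (P1 m d z) * b (P2 m d z)) with hf
  have hM0 : 0 ≤ M := (norm_nonneg _).trans (hM ⟨0, by omega⟩ 0)
  have hfm : Measurable f := by
    apply Measurable.mul
    · have h1 : Continuous fun z : E (m + d) =>
          Complex.exp (-((⟪J x y, z⟫ : ℝ) : ℂ) * I) := by fun_prop
      exact h1.measurable
    · exact ((ten_meas a ha).comp (P1_meas m d)).mul (hb.comp (P2_meas m d))
  have hfb : ∀ z, ‖f z‖ ≤ M ^ m * K := by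
    intro z
    simp only [hf]
    rw [norm_mul, norm_e, one_mul, norm_mul]
    exact mul_le_mul (ten_le a M hM _) (hK _) (norm_nonneg _) (by positivity)
  rw [BR.T11.sg_eq m d (by omega) hd,
    integral_map (BR.T11.par_meas m d).aemeasurable hfm.aestronglyMeasurable]
  have hint : Integrable (fun p => f (BR.T11.par m d p))
      ((BR.T11.nu m d).prod ((sg m).prod (sg d))) := by
    refine Integrable.mono' (integrable_const (M ^ m * K))
      (hfm.comp (BR.T11.par_meas m d)).aestronglyMeasurable ?_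
    exact Filter.Eventually.of_forall fun p => hfb _
  rw [integral_prod _ hint]
  unfold BR.T11.nu
  rw [integral_withDensity_eq_integral_toReal_smul (BR.T11.wt_meas m d)
    (Filter.Eventually.of_forall fun θ => (BR.T11.wt_le m d θ).trans_lt ENNReal.one_lt_top)]
  refine setIntegral_congr_fun (by unfold BR.Q; exact measurableSet_Ioo) ?_
  intro θ hθ
  have hcos : 0 < Real.cos θ := by
    unfold BR.Q at hθ
    exact Real.cos_pos_of_mem_Ioo ⟨by linarith [hθ.1, Real.pi_pos], hθ.2⟩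
  have hsin : 0 < Real.sin θ := by
    unfold BR.Q at hθ
    exact Real.sin_pos_of_pos_of_lt_pi hθ.1 (by linarith [hθ.2, Real.pi_pos])
  have hw : (BR.T11.wt m d θ).toReal = (Real.cos θ) ^ (m - 1) * (Real.sin θ) ^ (d - 1) := by
    unfold BR.T11.wt
    rw [ENNReal.toReal_ofReal (by positivity)]
  have inner : ∫ p : E m × E d, f (BR.T11.par m d (θ, p)) ∂((sg m).prod (sg d)) =
      IA a x (Real.cos θ) * IB b y (Real.sin θ) := by
    have h1 : ∀ p : E m × E d, f (BR.T11.par m d (θ, p)) =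
        (ten a (Real.cos θ • p.1) * Complex.exp (-((⟪Real.cos θ • p.1, x⟫ : ℝ) : ℂ) * I)) *
          (b (Real.sin θ • p.2) * Complex.exp (-((⟪Real.sin θ • p.2, y⟫ : ℝ) : ℂ) * I)) := by
      intro p
      simp only [hf, BR.T11.par]
      rw [P1_J, P2_J, BR.J_inner]
      have e : Complex.exp (-((⟪x, Real.cos θ • p.1⟫ + ⟪y, Real.sin θ • p.2⟫ : ℝ) : ℂ) * I) =
          Complex.exp (-((⟪Real.cos θ • p.1, x⟫ : ℝ) : ℂ) * I) *
            Complex.exp (-((⟪Real.sin θ • p.2, y⟫ : ℝ) : ℂ) * I) := by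
        rw [← Complex.exp_add, real_inner_comm x, real_inner_comm y]
        congr 1
        push_cast
        ring
      rw [e]
      ring
    simp_rw [h1]
    exact integral_prod_mul
      (fun u : E m => ten a (Real.cos θ • u) * Complex.exp (-((⟪Real.cos θ • u, x⟫ : ℝ) : ℂ) * I))
      (fun v : E d => b (Real.sin θ • v) * Complex.exp (-((⟪Real.sin θ • v, y⟫ : ℝ) : ℂ) * I))
  simp only
  rw [inner, hw, Complex.real_smul]

/-- the right side in polar coordinates -/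
theorem rhs (m d : ℕ) (hm : 2 ≤ m) (hd : 1 ≤ d) (a : Fin m → ℝ → ℂ) (b : E d → ℂ) (M K : ℝ)
    (ha : ∀ j, Measurable (a j)) (hb : Measurable b) (hM : ∀ j u, ‖a j u‖ ≤ M)
    (hK : ∀ y, ‖b y‖ ≤ K) (x : E m) (y : E d) :
    ∫ y' in Metric.ball (0 : E d) 1, 2 * hh a x (1 - ‖y'‖ ^ 2) * b y' *
      Complex.exp (-((⟪y', y⟫ : ℝ) : ℂ) * I) =
    ∫ r in Ioo (0 : ℝ) 1, ((r ^ (d - 1) : ℝ) : ℂ) * (2 * hh a x (1 - r ^ 2) * IB b y r) := by
  set g : E d → ℂ := fun y' => 2 * hh a x (1 - ‖y'‖ ^ 2) * b y' *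
      Complex.exp (-((⟪y', y⟫ : ℝ) : ℂ) * I) with hg
  have hM0 : 0 ≤ M := (norm_nonneg _).trans (hM ⟨0, by omega⟩ 0)
  have hgm : Measurable g := by
    have h1 : Measurable fun y' : E d => hh a x (1 - ‖y'‖ ^ 2) :=
      (hh_meas' a ha x).comp (by fun_prop)
    have h2 : Continuous fun y' : E d => Complex.exp (-((⟪y', y⟫ : ℝ) : ℂ) * I) := by fun_prop
    exact ((h1.const_mul 2).mul hb).mul h2.measurable
  set C : ℝ := 2 * (1 / 2 * (M ^ m * (sg m).real univ)) * K with hC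
  have hgb : ∀ y' ∈ Metric.ball (0 : E d) 1, ‖g y'‖ ≤ C := by
    intro y' hy'
    rw [mem_ball_zero_iff] at hy'
    have hw0 : 0 ≤ 1 - ‖y'‖ ^ 2 := by nlinarith [norm_nonneg y']
    have hw1 : 1 - ‖y'‖ ^ 2 ≤ 1 := by nlinarith [norm_nonneg y']
    have h1 := hh_le hm a M hM x hw0 hw1
    simp only [hg]
    rw [norm_mul, norm_e, mul_one, norm_mul, norm_mul, Complex.norm_ofNat]
    exact mul_le_mul (mul_le_mul_of_nonneg_left h1 (by norm_num)) (hK _) (norm_nonneg _)
      (by positivity)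
  have hball : MeasurableSet (Metric.ball (0 : E d) 1) := Metric.isOpen_ball.measurableSet
  have hint : Integrable ((Metric.ball (0 : E d) 1).indicator g) := by
    rw [integrable_indicator_iff hball]
    refine Measure.integrableOn_of_bounded (M := C) measure_ball_lt_top.ne
      hgm.aestronglyMeasurable ?_
    rw [ae_restrict_iff' hball]
    exact Filter.Eventually.of_forall hgb
  rw [← integral_indicator hball, BR.T7.polar_int hd _ hint]
  have hsub : Ioo (0 : ℝ) 1 ⊆ Ioi 0 := Ioo_subset_Ioi_self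
  have e1 : ∀ r ∈ Ioi (0 : ℝ), ((r ^ (d - 1) : ℝ) : ℂ) *
      ∫ w, (Metric.ball (0 : E d) 1).indicator g (r • w) ∂(sg d) =
      (Ioo (0 : ℝ) 1).indicator (fun r => ((r ^ (d - 1) : ℝ) : ℂ) *
        (2 * hh a x (1 - r ^ 2) * IB b y r)) r := by
    intro r hr
    have hr' : (0 : ℝ) < r := hr
    by_cases hr1 : r < 1
    · rw [indicator_of_mem (show r ∈ Ioo (0 : ℝ) 1 from ⟨hr', hr1⟩)]
      congr 1
      unfold IB
      rw [← integral_const_mul]
      refine integral_congr_ae ?_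
      filter_upwards [Pool.Agent.H789R2.FR.sg_ae d] with w hw
      have hn : ‖r • w‖ = r := by rw [norm_smul, hw, mul_one, Real.norm_of_nonneg hr'.le]
      rw [indicator_of_mem (by rw [mem_ball_zero_iff, hn]; exact hr1)]
      simp only [hg]
      rw [hn]
      ring
    · rw [indicator_of_notMem (fun h => hr1 h.2)]
      have : ∫ w, (Metric.ball (0 : E d) 1).indicator g (r • w) ∂(sg d) = 0 := by
        rw [integral_eq_zero_of_ae]
        filter_upwards [Pool.Agent.H789R2.FR.sg_ae d] with w hw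
        have hn : ‖r • w‖ = r := by rw [norm_smul, hw, mul_one, Real.norm_of_nonneg hr'.le]
        rw [indicator_of_notMem (by rw [mem_ball_zero_iff, hn]; exact hr1)]
        rfl
      rw [this, mul_zero]
  rw [setIntegral_congr_fun measurableSet_Ioi e1, integral_indicator measurableSet_Ioo,
    Measure.restrict_restrict measurableSet_Ioo, inter_eq_left.2 hsub]

end A8

open A8 in
/-- A8: representation -/
theorem repr (m d : ℕ) (hm : 2 ≤ m) (hd : 1 ≤ d) (a : Fin m → ℝ → ℂ) (b : E d → ℂ) (M K : ℝ)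
    (ha : ∀ j, Measurable (a j)) (hb : Measurable b) (hM : ∀ j u, ‖a j u‖ ≤ M)
    (hK : ∀ y, ‖b y‖ ≤ K) (x : E m) (y : E d) :
    ∫ z, Complex.exp (-((⟪J x y, z⟫ : ℝ) : ℂ) * I) * (ten a (P1 m d z) * b (P2 m d z))
      ∂(sg (m + d)) =
    ∫ y' in Metric.ball (0 : E d) 1, 2 * hh a x (1 - ‖y'‖ ^ 2) * b y' *
      Complex.exp (-((⟪y', y⟫ : ℝ) : ℂ) * I) := by
  rw [lhs m d hm hd a b M K ha hb hM hK x y, rhs m d hm hd a b M K ha hb hM hK x y, subst_sin]
  refine setIntegral_congr_fun (by unfold BR.Q; exact measurableSet_Ioo) fun θ hθ => ?_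
  unfold BR.Q at hθ
  have hcos : 0 < Real.cos θ :=
    Real.cos_pos_of_mem_Ioo ⟨by linarith [hθ.1, Real.pi_pos], hθ.2⟩
  have h1 : 1 - Real.sin θ ^ 2 = Real.cos θ ^ 2 := by
    have := Real.sin_sq_add_cos_sq θ
    linarith
  rw [h1, hh_cos hm a x hcos]
  have h2 : Real.cos θ ^ (m - 1) = Real.cos θ * Real.cos θ ^ (m - 2) := by
    rw [← pow_succ']
    congr 1
    omega
  rw [h2]
  push_cast
  ring

end Pool.Agent.H438R2.PD
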