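import Mathlib
import Pool.Agent.H72.Lib.S8.H438R2.PD.Defs
set_option autoImplicit false

/-! # A1: sup bound and pointwise decomposition -/

namespace Pool.Agent.H438R2.PD

open MeasureTheory Set Complex
open scoped ENNReal

namespace A1

/-- the integrand of `B` -/
noncomputable def G (a : ℝ → ℂ) (ξ l s d : ℝ) : ℂ :=
  a ((s + d) / 2) * a ((s - d) / 2) *
    Complex.exp (((l * ((s ^ 2 + d ^ 2) / 2) - ξ * s : ℝ) : ℂ) * I)

theorem B_eq (a : ℝ → ℂ) (k : ℕ) (ξ l : ℝ) :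
    B a k ξ l = ∫ s in Ioo (-2 : ℝ) 2, ∫ d in Ioc ((1 / 2 : ℝ) ^ k) (2 * (1 / 2 : ℝ) ^ k),
      G a ξ l s d := rfl

theorem G_norm (a : ℝ → ℂ) (M : ℝ) (hM : ∀ u, ‖a u‖ ≤ M) (ξ l s d : ℝ) :
    ‖G a ξ l s d‖ ≤ M ^ 2 := by
  have h0 : 0 ≤ M := (norm_nonneg _).trans (hM 0)
  unfold G
  rw [norm_mul, norm_mul, Complex.norm_exp_ofReal_mul_I, mul_one, sq]
  exact mul_le_mul (hM _) (hM _) (norm_nonneg _) h0

theorem G_meas (a : ℝ → ℂ) (ha : Measurable a) :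
    Measurable fun z : ((ℝ × ℝ) × ℝ) × ℝ => G a z.1.1.1 z.1.1.2 z.1.2 z.2 := by
  unfold G
  fun_prop

end A1

open A1

theorem B_sup (a : ℝ → ℂ) (M : ℝ) (ha : Measurable a) (hM : ∀ u, ‖a u‖ ≤ M) (k : ℕ) (ξ l : ℝ) :
    ‖B a k ξ l‖ ≤ 4 * M ^ 2 * (1 / 2) ^ k := by
  have h1 : ∀ s ∈ Ioo (-2 : ℝ) 2,
      ‖∫ d in Ioc ((1 / 2 : ℝ) ^ k) (2 * (1 / 2 : ℝ) ^ k), G a ξ l s d‖ ≤
        M ^ 2 * (1 / 2) ^ k := by
    intro s _
    have h2 := norm_setIntegral_le_of_norm_le_const (μ := volume)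
      (s := Ioc ((1 / 2 : ℝ) ^ k) (2 * (1 / 2 : ℝ) ^ k)) (f := fun d => G a ξ l s d)
      (C := M ^ 2) (by rw [Real.volume_Ioc]; exact ENNReal.ofReal_lt_top)
      (fun d _ => G_norm a M hM ξ l s d)
    refine h2.trans (le_of_eq ?_)
    rw [Measure.real, Real.volume_Ioc, ENNReal.toReal_ofReal (by
      have : (0 : ℝ) < (1 / 2) ^ k := by positivity
      linarith)]
    ring
  rw [B_eq]
  have h3 := norm_setIntegral_le_of_norm_le_const (μ := volume) (s := Ioo (-2 : ℝ) 2)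
    (f := fun s => ∫ d in Ioc ((1 / 2 : ℝ) ^ k) (2 * (1 / 2 : ℝ) ^ k), G a ξ l s d)
    (C := M ^ 2 * (1 / 2) ^ k) (by rw [Real.volume_Ioo]; exact ENNReal.ofReal_lt_top) h1
  refine h3.trans (le_of_eq ?_)
  rw [Measure.real, Real.volume_Ioo, ENNReal.toReal_ofReal (by norm_num)]
  ring

theorem B_meas (a : ℝ → ℂ) (ha : Measurable a) (k : ℕ) :
    Measurable fun q : ℝ × ℝ => B a k q.1 q.2 := by
  have h1 : StronglyMeasurable (Function.uncurry fun (w : (ℝ × ℝ) × ℝ) (d : ℝ) =>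
      G a w.1.1 w.1.2 w.2 d) := (G_meas a ha).stronglyMeasurable
  have h2 := h1.integral_prod_right
    (ν := volume.restrict (Ioc ((1 / 2 : ℝ) ^ k) (2 * (1 / 2 : ℝ) ^ k)))
  have h3 : StronglyMeasurable (Function.uncurry fun (q : ℝ × ℝ) (s : ℝ) =>
      ∫ d in Ioc ((1 / 2 : ℝ) ^ k) (2 * (1 / 2 : ℝ) ^ k), G a q.1 q.2 s d) := h2
  have h4 := h3.integral_prod_right (ν := volume.restrict (Ioo (-2 : ℝ) 2))
  exact h4.measurable

theorem E1_meas (a : ℝ → ℂ) (ha : Measurable a) :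
    Measurable fun q : ℝ × ℝ => E1 a q.1 q.2 := by
  have h1 : StronglyMeasurable (Function.uncurry fun (q : ℝ × ℝ) (u : ℝ) =>
      a u * Complex.exp (((q.2 * u ^ 2 - q.1 * u : ℝ) : ℂ) * I)) := by
    apply Measurable.stronglyMeasurable
    unfold Function.uncurry
    fun_prop
  have h2 := h1.integral_prod_right (ν := volume.restrict (Ioo (-1 : ℝ) 1))
  exact h2.measurable

namespace A1

/-- the integrand of `E1` -/
noncomputable def f0 (a : ℝ → ℂ) (ξ l u : ℝ) : ℂ :=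
  a u * Complex.exp (((l * u ^ 2 - ξ * u : ℝ) : ℂ) * I)

theorem f0_integrable (a : ℝ → ℂ) (M : ℝ) (ha : Measurable a) (hM : ∀ u, ‖a u‖ ≤ M)
    (hs : ∀ u, u ∉ Ioo (-1 : ℝ) 1 → a u = 0) (ξ l : ℝ) : Integrable (f0 a ξ l) := by
  have h1 : IntegrableOn (f0 a ξ l) (Ioo (-1 : ℝ) 1) := by
    refine Measure.integrableOn_of_bounded (M := M)
      (by rw [Real.volume_Ioo]; exact ENNReal.ofReal_ne_top) ?_ ?_
    · apply Measurable.aestronglyMeasurable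
      unfold f0
      fun_prop
    · refine Filter.Eventually.of_forall fun u => ?_
      unfold f0
      rw [norm_mul, Complex.norm_exp_ofReal_mul_I, mul_one]
      exact hM u
  exact (integrableOn_iff_integrable_of_support_subset (by
    intro u hu
    by_contra h
    apply hu
    unfold f0
    rw [hs u h, zero_mul])).mp h1

theorem E1_eq (a : ℝ → ℂ) (hs : ∀ u, u ∉ Ioo (-1 : ℝ) 1 → a u = 0) (ξ l : ℝ) :
    E1 a ξ l = ∫ u, f0 a ξ l u := by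
  unfold E1
  exact setIntegral_eq_integral_of_forall_compl_eq_zero (fun u hu => by
    rw [hs u hu, zero_mul])

theorem f0_mul (a : ℝ → ℂ) (ξ l s d : ℝ) :
    f0 a ξ l ((s + d) / 2) * f0 a ξ l ((s - d) / 2) = G a ξ l s d := by
  unfold f0 G
  have h1 : Complex.exp (((l * ((s ^ 2 + d ^ 2) / 2) - ξ * s : ℝ) : ℂ) * I) =
      Complex.exp (((l * ((s + d) / 2) ^ 2 - ξ * ((s + d) / 2) : ℝ) : ℂ) * I) *
        Complex.exp (((l * ((s - d) / 2) ^ 2 - ξ * ((s - d) / 2) : ℝ) : ℂ) * I) := by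
    rw [← Complex.exp_add]
    congr 1
    push_cast
    ring
  rw [h1]
  ring

/-- the inner integral after the change of variables -/
theorem conv_eq (f : ℝ → ℂ) (s : ℝ)
    (hI : Integrable fun d => f ((s + d) / 2) * f ((s - d) / 2)) :
    ∫ t, f t * f (s - t) = ∫ d in Ioi (0 : ℝ), f ((s + d) / 2) * f ((s - d) / 2) := by
  have h1 : ∫ d, f ((s + d) / 2) * f ((s - d) / 2) = 2 * ∫ t, f t * f (s - t) := by
    have e1 : ∀ d, f ((s + d) / 2) * f ((s - d) / 2) =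
        (fun t => f (s / 2 + t) * f (s - (s / 2 + t))) ((1 / 2) * d) := by
      intro d
      have e2 : (s + d) / 2 = s / 2 + 1 / 2 * d := by ring
      have e3 : (s - d) / 2 = s - (s / 2 + 1 / 2 * d) := by ring
      rw [e2, e3]
    simp_rw [e1]
    rw [Measure.integral_comp_mul_left (fun t => f (s / 2 + t) * f (s - (s / 2 + t))) (1 / 2 : ℝ)]
    rw [integral_add_left_eq_self (fun t => f t * f (s - t)) (s / 2)]
    norm_num
  have h2 : ∫ d, f ((s + d) / 2) * f ((s - d) / 2) =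
      2 * ∫ d in Ioi (0 : ℝ), f ((s + d) / 2) * f ((s - d) / 2) := by
    have h3 := intervalIntegral.integral_Iic_add_Ioi (b := 0) hI.integrableOn hI.integrableOn
    have h5 := integral_comp_neg_Ioi (0 : ℝ) (fun d => f ((s + d) / 2) * f ((s - d) / 2))
    rw [neg_zero] at h5
    have h6 : ∫ x in Ioi (0 : ℝ), (fun d => f ((s + d) / 2) * f ((s - d) / 2)) (-x) =
        ∫ d in Ioi (0 : ℝ), f ((s + d) / 2) * f ((s - d) / 2) := by
      refine integral_congr_ae (Filter.Eventually.of_forall fun d => ?_)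
      show f ((s + -d) / 2) * f ((s - -d) / 2) = f ((s + d) / 2) * f ((s - d) / 2)
      rw [sub_neg_eq_add, ← sub_eq_add_neg, mul_comm]
    rw [← h3, ← h5, h6]
    ring
  have h4 := h1.symm.trans h2
  exact mul_left_cancel₀ two_ne_zero h4

theorem G_zero (a : ℝ → ℂ) (hs : ∀ u, u ∉ Ioo (-1 : ℝ) 1 → a u = 0) (ξ l s d : ℝ)
    (h : ¬ (s ∈ Ioo (-2 : ℝ) 2 ∧ d ∈ Ioo (-2 : ℝ) 2)) : G a ξ l s d = 0 := by
  unfold G
  by_cases h1 : (s + d) / 2 ∈ Ioo (-1 : ℝ) 1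
  · by_cases h2 : (s - d) / 2 ∈ Ioo (-1 : ℝ) 1
    · exfalso
      apply h
      obtain ⟨h3, h4⟩ := h1
      obtain ⟨h5, h6⟩ := h2
      refine ⟨⟨?_, ?_⟩, ⟨?_, ?_⟩⟩ <;> linarith
    · rw [hs _ h2, mul_zero, zero_mul]
  · rw [hs _ h1, zero_mul, zero_mul]

theorem G_int1 (a : ℝ → ℂ) (M : ℝ) (ha : Measurable a) (hM : ∀ u, ‖a u‖ ≤ M)
    (hs : ∀ u, u ∉ Ioo (-1 : ℝ) 1 → a u = 0) (ξ l s : ℝ) :
    Integrable fun d => G a ξ l s d := by
  have h1 : IntegrableOn (fun d => G a ξ l s d) (Ioo (-2 : ℝ) 2) := by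
    refine Measure.integrableOn_of_bounded (M := M ^ 2)
      (by rw [Real.volume_Ioo]; exact ENNReal.ofReal_ne_top) ?_
      (Filter.Eventually.of_forall fun d => G_norm a M hM ξ l s d)
    apply Measurable.aestronglyMeasurable
    unfold G
    fun_prop
  exact (integrableOn_iff_integrable_of_support_subset (by
    intro d hd
    by_contra h
    exact hd (G_zero a hs ξ l s d (fun h2 => h h2.2)))).mp h1

theorem G_int2 (a : ℝ → ℂ) (M : ℝ) (ha : Measurable a) (hM : ∀ u, ‖a u‖ ≤ M)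
    (ξ l : ℝ) : IntegrableOn (fun z : ℝ × ℝ => G a ξ l z.1 z.2)
      (Ioo (-2 : ℝ) 2 ×ˢ Ioc (0 : ℝ) 2) (volume.prod volume) := by
  refine Measure.integrableOn_of_bounded (M := M ^ 2) ?_ ?_
      (Filter.Eventually.of_forall fun z => G_norm a M hM ξ l z.1 z.2)
  · rw [Measure.prod_prod, Real.volume_Ioo, Real.volume_Ioc]
    exact ENNReal.mul_ne_top ENNReal.ofReal_ne_top ENNReal.ofReal_ne_top
  · apply Measurable.aestronglyMeasurable
    unfold G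
    fun_prop

theorem E1_mul (a : ℝ → ℂ) (M : ℝ) (ha : Measurable a) (hM : ∀ u, ‖a u‖ ≤ M)
    (hs : ∀ u, u ∉ Ioo (-1 : ℝ) 1 → a u = 0) (ξ l : ℝ) :
    E1 a ξ l * E1 a ξ l = ∫ z in Ioo (-2 : ℝ) 2 ×ˢ Ioc (0 : ℝ) 2, G a ξ l z.1 z.2
      ∂(volume.prod volume) := by
  have hf := f0_integrable a M ha hM hs ξ l
  have h1 := integral_convolution (μ := volume) (ν := volume)
    (ContinuousLinearMap.mul ℝ ℂ) hf hf
  have h2 : (∫ s, ∫ t, f0 a ξ l t * f0 a ξ l (s - t)) = E1 a ξ l * E1 a ξ l := by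
    rw [E1_eq a hs]
    exact h1
  rw [← h2, setIntegral_prod _ (G_int2 a M ha hM ξ l)]
  have h3 : ∀ s, (∫ t, f0 a ξ l t * f0 a ξ l (s - t)) = ∫ d in Ioc (0 : ℝ) 2, G a ξ l s d := by
    intro s
    rw [conv_eq (f0 a ξ l) s (by simp_rw [f0_mul]; exact G_int1 a M ha hM hs ξ l s)]
    simp_rw [f0_mul]
    refine setIntegral_eq_of_subset_of_forall_sdiff_eq_zero measurableSet_Ioi
      (fun d hd => hd.1) (fun d hd => ?_)
    refine G_zero a hs ξ l s d (fun h => hd.2 ⟨hd.1, h.2.2.le⟩)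
  simp_rw [h3]
  rw [setIntegral_eq_integral_of_forall_compl_eq_zero]
  intro s hs'
  have h4 : ∀ d, G a ξ l s d = 0 := fun d => G_zero a hs ξ l s d (fun h => hs' h.1)
  simp_rw [h4]
  simp

theorem Ioc_union : (⋃ k : ℕ, Ioc ((1 / 2 : ℝ) ^ k) (2 * (1 / 2 : ℝ) ^ k)) = Ioc (0 : ℝ) 2 := by
  ext d
  simp only [mem_iUnion, mem_Ioc]
  constructor
  · rintro ⟨k, h1, h2⟩
    have h3 : (0 : ℝ) < (1 / 2) ^ k := by positivity
    have h4 : (1 / 2 : ℝ) ^ k ≤ 1 := pow_le_one₀ (by norm_num) (by norm_num)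
    exact ⟨by linarith, by linarith⟩
  · rintro ⟨h1, h2⟩
    have h3 : ∃ k : ℕ, (1 / 2 : ℝ) ^ k < d := exists_pow_lt_of_lt_one h1 (by norm_num)
    classical
    refine ⟨Nat.find h3, Nat.find_spec h3, ?_⟩
    rcases Nat.eq_zero_or_pos (Nat.find h3) with h4 | h4
    · rw [h4]
      linarith
    · obtain ⟨m, hm⟩ : ∃ m, Nat.find h3 = m + 1 := ⟨Nat.find h3 - 1, by omega⟩
      have h5 : ¬ (1 / 2 : ℝ) ^ m < d := Nat.find_min h3 (by omega)
      rw [hm, pow_succ]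
      push Not at h5
      linarith

theorem Ioc_disj : Pairwise (Function.onFun Disjoint
    fun k : ℕ => Ioc ((1 / 2 : ℝ) ^ k) (2 * (1 / 2 : ℝ) ^ k)) := by
  have h1 : ∀ i j : ℕ, i < j → Disjoint (Ioc ((1 / 2 : ℝ) ^ i) (2 * (1 / 2 : ℝ) ^ i))
      (Ioc ((1 / 2 : ℝ) ^ j) (2 * (1 / 2 : ℝ) ^ j)) := by
    intro i j hij
    rw [Set.disjoint_left]
    intro d hd hd'
    have h2 : (1 / 2 : ℝ) ^ j ≤ (1 / 2) ^ (i + 1) :=
      pow_le_pow_of_le_one (by norm_num) (by norm_num) hij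
    rw [pow_succ] at h2
    have h3 := hd.1
    have h4 := hd'.2
    linarith
  intro i j hij
  rcases lt_or_gt_of_ne hij with h | h
  · exact h1 i j h
  · exact (h1 j i h).symm

theorem E1_hasSum (a : ℝ → ℂ) (M : ℝ) (ha : Measurable a) (hM : ∀ u, ‖a u‖ ≤ M)
    (hs : ∀ u, u ∉ Ioo (-1 : ℝ) 1 → a u = 0) (ξ l : ℝ) :
    HasSum (fun k => B a k ξ l) (E1 a ξ l * E1 a ξ l) := by
  have hu : (⋃ k : ℕ, Ioo (-2 : ℝ) 2 ×ˢ Ioc ((1 / 2 : ℝ) ^ k) (2 * (1 / 2 : ℝ) ^ k)) =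
      Ioo (-2 : ℝ) 2 ×ˢ Ioc (0 : ℝ) 2 := by
    rw [← Set.prod_iUnion, Ioc_union]
  have h1 := hasSum_integral_iUnion (μ := volume.prod volume)
    (f := fun z : ℝ × ℝ => G a ξ l z.1 z.2)
    (s := fun k : ℕ => Ioo (-2 : ℝ) 2 ×ˢ Ioc ((1 / 2 : ℝ) ^ k) (2 * (1 / 2 : ℝ) ^ k))
    (fun k => measurableSet_Ioo.prod measurableSet_Ioc)
    (fun i j hij => Set.Disjoint.set_prod_right (Ioc_disj hij) _ _)
    (by rw [hu]; exact G_int2 a M ha hM ξ l)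
  rw [hu, ← E1_mul a M ha hM hs] at h1
  have h2 : (fun k => B a k ξ l) = fun k : ℕ =>
      ∫ z in Ioo (-2 : ℝ) 2 ×ˢ Ioc ((1 / 2 : ℝ) ^ k) (2 * (1 / 2 : ℝ) ^ k),
        G a ξ l z.1 z.2 ∂(volume.prod volume) := by
    funext k
    rw [B_eq, setIntegral_prod]
    refine (G_int2 a M ha hM ξ l).mono_set ?_
    rw [← hu]
    exact subset_iUnion (fun k : ℕ => Ioo (-2 : ℝ) 2 ×ˢ
      Ioc ((1 / 2 : ℝ) ^ k) (2 * (1 / 2 : ℝ) ^ k)) k
  rw [h2]
  exact h1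

end A1

open A1 in
theorem E1_sq (a : ℝ → ℂ) (M : ℝ) (ha : Measurable a) (hM : ∀ u, ‖a u‖ ≤ M)
    (hs : ∀ u, u ∉ Ioo (-1 : ℝ) 1 → a u = 0) (ξ l : ℝ) :
    ENNReal.ofReal (‖E1 a ξ l‖ ^ 2) ≤ ∑' k, ENNReal.ofReal ‖B a k ξ l‖ := by
  have h1 := E1_hasSum a M ha hM hs ξ l
  have h2 : Summable fun k => ‖B a k ξ l‖ := by
    refine Summable.of_nonneg_of_le (fun k => norm_nonneg _)
      (fun k => B_sup a M ha hM k ξ l) ?_
    exact (summable_geometric_of_lt_one (by norm_num) (by norm_num)).mul_left _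
  rw [← ENNReal.ofReal_tsum_of_nonneg (fun k => norm_nonneg _) h2]
  apply ENNReal.ofReal_le_ofReal
  rw [sq, ← norm_mul, ← h1.tsum_eq]
  exact norm_tsum_le_tsum_norm h2

end Pool.Agent.H438R2.PD
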