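import Mathlib
import Pool.Agent.H72.Lib.S8.H438R2.PD.Defs
import Pool.Agent.H72.Lib.S8.Helper390.CovarioA

set_option autoImplicit false

/-! # A2: the `L²` bound of the bilinear pieces (helper89) -/

namespace Pool.Agent.H438R2.PD

open MeasureTheory Set Complex
open scoped ENNReal RealInnerProductSpace FourierTransform

namespace A2

theorem planch (f : ℝ → ℂ) (h1 : Integrable f) (h2 : MemLp f 2) (a : ℝ) (ha : a ≠ 0) :
    ∫⁻ ξ : ℝ, ENNReal.ofReal
      (‖∫ s : ℝ, Complex.exp ((((-2 * Real.pi * s * (ξ / a)) : ℝ) : ℂ) * I) * f s‖ ^ 2) =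
      ENNReal.ofReal |a| * ∫⁻ s, ENNReal.ofReal (‖f s‖ ^ 2) := by
  obtain ⟨hm, he⟩ := Pool.Agent.Helper390.Covario.plancherel h1 h2
  have hF : ∀ ξ : ℝ, ∫ s : ℝ, Complex.exp ((((-2 * Real.pi * s * (ξ / a)) : ℝ) : ℂ) * I) * f s =
      𝓕 f (ξ / a) := by
    intro ξ
    rw [Real.fourier_real_eq_integral_exp_smul]
    rfl
  have hint : Integrable (fun x => ‖𝓕 f x‖ ^ 2) :=
    (memLp_two_iff_integrable_sq_norm hm.aestronglyMeasurable).1 hm
  have hint' : Integrable (fun ξ : ℝ => ‖𝓕 f (ξ / a)‖ ^ 2) := hint.comp_div ha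
  have hintf : Integrable (fun x => ‖f x‖ ^ 2) :=
    (memLp_two_iff_integrable_sq_norm h2.aestronglyMeasurable).1 h2
  simp only [hF]
  rw [← ofReal_integral_eq_lintegral_ofReal hint' (ae_of_all _ fun _ => by positivity),
    ← ofReal_integral_eq_lintegral_ofReal hintf (ae_of_all _ fun _ => by positivity),
    Measure.integral_comp_div (fun x => ‖𝓕 f x‖ ^ 2) a, he, smul_eq_mul,
    ENNReal.ofReal_mul (abs_nonneg _)]

theorem ind_lp {S : Set ℝ} (hS : MeasurableSet S) (hfin : volume S ≠ ⊤) {g : ℝ → ℂ}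
    (hg : Measurable g) {K : ℝ} (hK : ∀ x ∈ S, ‖g x‖ ≤ K) (p : ℝ≥0∞) :
    MemLp (S.indicator g) p volume := by
  rw [memLp_indicator_iff_restrict hS]
  haveI : IsFiniteMeasure (volume.restrict S) :=
    ⟨by rw [Measure.restrict_apply_univ]; exact lt_top_iff_ne_top.2 hfin⟩
  exact MemLp.of_bound hg.aestronglyMeasurable K ((ae_restrict_iff' hS).2 (ae_of_all _ hK))

/-- the inner integral -/
noncomputable def Psi (a : ℝ → ℂ) (k : ℕ) (s l : ℝ) : ℂ :=
  ∫ d in Ioc ((1 / 2 : ℝ) ^ k) (2 * (1 / 2 : ℝ) ^ k),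
    a ((s + d) / 2) * a ((s - d) / 2) * Complex.exp (((l * (d ^ 2 / 2) : ℝ) : ℂ) * I)

theorem Psi_meas (a : ℝ → ℂ) (ha : Measurable a) (k : ℕ) :
    Measurable fun q : ℝ × ℝ => Psi a k q.1 q.2 := by
  have h1 : StronglyMeasurable (fun z : (ℝ × ℝ) × ℝ =>
      a ((z.1.1 + z.2) / 2) * a ((z.1.1 - z.2) / 2) *
        Complex.exp (((z.1.2 * (z.2 ^ 2 / 2) : ℝ) : ℂ) * I)) := by
    apply Measurable.stronglyMeasurable
    have e1 : Measurable (fun z : (ℝ × ℝ) × ℝ => a ((z.1.1 + z.2) / 2)) := ha.comp (by fun_prop)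
    have e2 : Measurable (fun z : (ℝ × ℝ) × ℝ => a ((z.1.1 - z.2) / 2)) := ha.comp (by fun_prop)
    have e3 : Measurable (fun z : (ℝ × ℝ) × ℝ =>
        Complex.exp (((z.1.2 * (z.2 ^ 2 / 2) : ℝ) : ℂ) * I)) := by fun_prop
    exact (e1.mul e2).mul e3
  exact (h1.integral_prod_right'
    (ν := volume.restrict (Ioc ((1 / 2 : ℝ) ^ k) (2 * (1 / 2 : ℝ) ^ k)))).measurable

theorem norm_e (x : ℝ) : ‖Complex.exp ((x : ℂ) * I)‖ = 1 := Complex.norm_exp_ofReal_mul_I x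

theorem Psi_bound (a : ℝ → ℂ) (M : ℝ) (hM : ∀ u, ‖a u‖ ≤ M) (k : ℕ) (s l : ℝ) :
    ‖Psi a k s l‖ ≤ M ^ 2 * (1 / 2) ^ k := by
  have hM0 : 0 ≤ M := (norm_nonneg _).trans (hM 0)
  have hk : (0 : ℝ) < (1 / 2) ^ k := by positivity
  unfold Psi
  refine (norm_setIntegral_le_of_norm_le_const (C := M ^ 2) (by
    rw [Real.volume_Ioc]; exact ENNReal.ofReal_lt_top) (fun d _ => ?_)).trans ?_
  · rw [norm_mul, norm_mul, norm_e, mul_one, sq]
    exact mul_le_mul (hM _) (hM _) (norm_nonneg _) hM0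
  · rw [Real.volume_real_Ioc_of_le (by linarith)]
    apply le_of_eq
    ring

/-- the image of the interval under `d ↦ d²/2` -/
theorem image_eq (δ : ℝ) (hδ : 0 < δ) :
    (fun d : ℝ => d ^ 2 / 2) '' Ioc δ (2 * δ) = Ioc (δ ^ 2 / 2) (2 * δ ^ 2) := by
  ext r
  constructor
  · rintro ⟨d, ⟨h1, h2⟩, rfl⟩
    constructor
    · simp only
      nlinarith
    · simp only
      nlinarith
  · rintro ⟨h1, h2⟩
    have hr : 0 < r := by nlinarith [sq_nonneg δ]
    have hs := Real.sq_sqrt (show (0 : ℝ) ≤ 2 * r by linarith)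
    have hs0 := Real.sqrt_nonneg (2 * r)
    refine ⟨Real.sqrt (2 * r), ⟨?_, ?_⟩, ?_⟩
    · apply Real.lt_sqrt_of_sq_lt
      linarith
    · rw [Real.sqrt_le_left (by linarith)]
      nlinarith
    · simp only
      rw [hs]
      ring

theorem Psi_eq (a : ℝ → ℂ) (k : ℕ) (s l : ℝ) :
    Psi a k s l = ∫ r : ℝ, Complex.exp ((((-2 * Real.pi * r * (l / (-(2 * Real.pi)))) : ℝ) : ℂ) * I) *
      (Ioc (((1 / 2 : ℝ) ^ k) ^ 2 / 2) (2 * ((1 / 2 : ℝ) ^ k) ^ 2)).indicator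
        (fun r => a ((s + Real.sqrt (2 * r)) / 2) * a ((s - Real.sqrt (2 * r)) / 2) *
          ((1 / Real.sqrt (2 * r) : ℝ) : ℂ)) r := by
  have hδ : (0 : ℝ) < (1 / 2) ^ k := by positivity
  set δ : ℝ := (1 / 2) ^ k with hδd
  have hpi : Real.pi ≠ 0 := Real.pi_ne_zero
  have e1 : ∀ r : ℝ, Complex.exp ((((-2 * Real.pi * r * (l / (-(2 * Real.pi)))) : ℝ) : ℂ) * I) *
      (Ioc (δ ^ 2 / 2) (2 * δ ^ 2)).indicator
        (fun r => a ((s + Real.sqrt (2 * r)) / 2) * a ((s - Real.sqrt (2 * r)) / 2) *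
          ((1 / Real.sqrt (2 * r) : ℝ) : ℂ)) r =
      (Ioc (δ ^ 2 / 2) (2 * δ ^ 2)).indicator
        (fun r => a ((s + Real.sqrt (2 * r)) / 2) * a ((s - Real.sqrt (2 * r)) / 2) *
          ((1 / Real.sqrt (2 * r) : ℝ) : ℂ) * Complex.exp (((l * r : ℝ) : ℂ) * I)) r := by
    intro r
    have e2 : -2 * Real.pi * r * (l / (-(2 * Real.pi))) = l * r := by
      field_simp
    rw [e2]
    by_cases hr : r ∈ Ioc (δ ^ 2 / 2) (2 * δ ^ 2)
    · rw [indicator_of_mem hr, indicator_of_mem hr]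
      ring
    · rw [indicator_of_notMem hr, indicator_of_notMem hr, mul_zero]
  simp only [e1]
  rw [integral_indicator measurableSet_Ioc, ← image_eq δ hδ,
    integral_image_eq_integral_abs_deriv_smul (f' := fun d => d) measurableSet_Ioc]
  · unfold Psi
    rw [← hδd]
    refine setIntegral_congr_fun measurableSet_Ioc (fun d hd => ?_)
    have hd0 : 0 < d := hδ.trans hd.1
    have e3 : Real.sqrt (2 * (d ^ 2 / 2)) = d := by
      rw [show 2 * (d ^ 2 / 2) = d ^ 2 by ring, Real.sqrt_sq hd0.le]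
    simp only [e3, abs_of_pos hd0]
    rw [Complex.real_smul]
    have hdc : (d : ℂ) ≠ 0 := by exact_mod_cast hd0.ne'
    push_cast
    field_simp
  · intro d _
    have h := ((hasDerivAt_pow 2 d).div_const 2)
    have e4 : ((2 : ℕ) : ℝ) * d ^ (2 - 1) / 2 = d := by
      norm_num
    rw [e4] at h
    exact h.hasDerivWithinAt
  · intro x hx y hy hxy
    simp only at hxy
    have hx0 : 0 < x := hδ.trans hx.1
    have hy0 : 0 < y := hδ.trans hy.1
    nlinarith [sq_nonneg (x - y), mul_pos hx0 hy0]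

theorem Psi_l2 (a : ℝ → ℂ) (M : ℝ) (ha : Measurable a) (hM : ∀ u, ‖a u‖ ≤ M) (k : ℕ) (s : ℝ) :
    ∫⁻ l, ENNReal.ofReal (‖Psi a k s l‖ ^ 2) ≤ ENNReal.ofReal (3 * Real.pi * M ^ 4) := by
  have hM0 : 0 ≤ M := (norm_nonneg _).trans (hM 0)
  have hδ : (0 : ℝ) < (1 / 2) ^ k := by positivity
  set δ : ℝ := (1 / 2) ^ k with hδd
  set g : ℝ → ℂ := fun r => a ((s + Real.sqrt (2 * r)) / 2) * a ((s - Real.sqrt (2 * r)) / 2) *
          ((1 / Real.sqrt (2 * r) : ℝ) : ℂ) with hg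
  have hgm : Measurable g := by
    have e1 : Measurable (fun r : ℝ => a ((s + Real.sqrt (2 * r)) / 2)) := ha.comp (by fun_prop)
    have e2 : Measurable (fun r : ℝ => a ((s - Real.sqrt (2 * r)) / 2)) := ha.comp (by fun_prop)
    have e3 : Measurable (fun r : ℝ => ((1 / Real.sqrt (2 * r) : ℝ) : ℂ)) := by
      apply Complex.measurable_ofReal.comp
      exact measurable_const.div (by fun_prop)
    exact (e1.mul e2).mul e3
  have hgb : ∀ r ∈ Ioc (δ ^ 2 / 2) (2 * δ ^ 2), ‖g r‖ ≤ M ^ 2 / δ := by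
    intro r hr
    have h1 : δ ≤ Real.sqrt (2 * r) := by
      apply Real.le_sqrt_of_sq_le
      linarith [hr.1]
    simp only [hg]
    rw [norm_mul, norm_mul, Complex.norm_real, Real.norm_eq_abs, abs_of_nonneg (by positivity),
      mul_one_div, sq]
    apply div_le_div₀ (by positivity) (mul_le_mul (hM _) (hM _) (norm_nonneg _) hM0) hδ h1
  have hfin : volume (Ioc (δ ^ 2 / 2) (2 * δ ^ 2)) ≠ ⊤ := by
    rw [Real.volume_Ioc]
    exact ENNReal.ofReal_ne_top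
  have h1 : Integrable ((Ioc (δ ^ 2 / 2) (2 * δ ^ 2)).indicator g) :=
    memLp_one_iff_integrable.1 (ind_lp measurableSet_Ioc hfin hgm hgb 1)
  have h2 := ind_lp measurableSet_Ioc hfin hgm hgb 2
  have h3 := planch _ h1 h2 (-(2 * Real.pi)) (by
    have := Real.pi_pos
    linarith)
  have h4 : ∀ l, Psi a k s l = ∫ r : ℝ,
      Complex.exp ((((-2 * Real.pi * r * (l / (-(2 * Real.pi)))) : ℝ) : ℂ) * I) *
      (Ioc (δ ^ 2 / 2) (2 * δ ^ 2)).indicator g r := fun l => Psi_eq a k s l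
  simp only [h4]
  rw [h3, abs_neg, abs_of_pos (by positivity)]
  calc ENNReal.ofReal (2 * Real.pi) *
        ∫⁻ r, ENNReal.ofReal (‖(Ioc (δ ^ 2 / 2) (2 * δ ^ 2)).indicator g r‖ ^ 2)
      ≤ ENNReal.ofReal (2 * Real.pi) * ∫⁻ r, (Ioc (δ ^ 2 / 2) (2 * δ ^ 2)).indicator
          (fun _ => ENNReal.ofReal ((M ^ 2 / δ) ^ 2)) r := by
        gcongr with r
        by_cases hr : r ∈ Ioc (δ ^ 2 / 2) (2 * δ ^ 2)
        · rw [indicator_of_mem hr, indicator_of_mem hr]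
          apply ENNReal.ofReal_le_ofReal
          exact pow_le_pow_left₀ (norm_nonneg _) (hgb r hr) 2
        · rw [indicator_of_notMem hr, indicator_of_notMem hr]
          simp
    _ = ENNReal.ofReal (3 * Real.pi * M ^ 4) := by
        rw [lintegral_indicator measurableSet_Ioc, setLIntegral_const, Real.volume_Ioc,
          ← ENNReal.ofReal_mul (by positivity), ← ENNReal.ofReal_mul (by positivity)]
        congr 1
        field_simp
        ring

theorem B_eq (a : ℝ → ℂ) (k : ℕ) (ξ l : ℝ) :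
    B a k ξ l = ∫ s : ℝ, Complex.exp ((((-2 * Real.pi * s * (ξ / (2 * Real.pi))) : ℝ) : ℂ) * I) *
      (Ioo (-2 : ℝ) 2).indicator
        (fun s => Complex.exp (((l * (s ^ 2 / 2) : ℝ) : ℂ) * I) * Psi a k s l) s := by
  have hpi : Real.pi ≠ 0 := Real.pi_ne_zero
  have e1 : ∀ s : ℝ, Complex.exp ((((-2 * Real.pi * s * (ξ / (2 * Real.pi))) : ℝ) : ℂ) * I) *
      (Ioo (-2 : ℝ) 2).indicator
        (fun s => Complex.exp (((l * (s ^ 2 / 2) : ℝ) : ℂ) * I) * Psi a k s l) s =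
      (Ioo (-2 : ℝ) 2).indicator (fun s => ∫ d in Ioc ((1 / 2 : ℝ) ^ k) (2 * (1 / 2 : ℝ) ^ k),
        a ((s + d) / 2) * a ((s - d) / 2) *
        Complex.exp (((l * ((s ^ 2 + d ^ 2) / 2) - ξ * s : ℝ) : ℂ) * I)) s := by
    intro s
    have e2 : -2 * Real.pi * s * (ξ / (2 * Real.pi)) = -(ξ * s) := by
      field_simp
    rw [e2]
    by_cases hs : s ∈ Ioo (-2 : ℝ) 2
    · rw [indicator_of_mem hs, indicator_of_mem hs]
      unfold Psi
      rw [← mul_assoc, ← integral_const_mul]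
      refine integral_congr_ae (ae_of_all _ fun d => ?_)
      simp only
      have e3 : Complex.exp (((l * ((s ^ 2 + d ^ 2) / 2) - ξ * s : ℝ) : ℂ) * I) =
          Complex.exp (((-(ξ * s) : ℝ) : ℂ) * I) * Complex.exp (((l * (s ^ 2 / 2) : ℝ) : ℂ) * I) *
          Complex.exp (((l * (d ^ 2 / 2) : ℝ) : ℂ) * I) := by
        rw [← Complex.exp_add, ← Complex.exp_add]
        congr 1
        push_cast
        ring
      rw [e3]
      ring
    · rw [indicator_of_notMem hs, indicator_of_notMem hs, mul_zero]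
  simp only [e1]
  rw [integral_indicator measurableSet_Ioo]
  rfl

end A2

open A2

theorem B_l2 : ∃ C : ℝ, 0 < C ∧ ∀ (a : ℝ → ℂ) (M : ℝ), Measurable a → (∀ u, ‖a u‖ ≤ M) →
    ∀ k : ℕ, ∫⁻ l, ∫⁻ ξ, ENNReal.ofReal (‖B a k ξ l‖ ^ 2) ≤ ENNReal.ofReal (C * M ^ 4) := by
  have hpi := Real.pi_pos
  refine ⟨24 * Real.pi ^ 2, by positivity, ?_⟩
  intro a M ha hM k
  have hM0 : 0 ≤ M := (norm_nonneg _).trans (hM 0)
  have hmeas := Psi_meas a ha k
  have hfin : volume (Ioo (-2 : ℝ) 2) ≠ ⊤ := by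
    rw [Real.volume_Ioo]
    exact ENNReal.ofReal_ne_top
  have step : ∀ l, ∫⁻ ξ, ENNReal.ofReal (‖B a k ξ l‖ ^ 2) =
      ENNReal.ofReal (2 * Real.pi) *
        ∫⁻ s in Ioo (-2 : ℝ) 2, ENNReal.ofReal (‖Psi a k s l‖ ^ 2) := by
    intro l
    set g : ℝ → ℂ := fun s => Complex.exp (((l * (s ^ 2 / 2) : ℝ) : ℂ) * I) * Psi a k s l with hg
    have hgm : Measurable g := by
      have e1 : Measurable (fun s : ℝ => Complex.exp (((l * (s ^ 2 / 2) : ℝ) : ℂ) * I)) := by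
        fun_prop
      have e2 : Measurable (fun s : ℝ => Psi a k s l) :=
        hmeas.comp (measurable_id.prodMk measurable_const)
      exact e1.mul e2
    have hgn : ∀ s, ‖g s‖ = ‖Psi a k s l‖ := by
      intro s
      simp only [hg]
      rw [norm_mul, norm_e, one_mul]
    have hgb : ∀ s ∈ Ioo (-2 : ℝ) 2, ‖g s‖ ≤ M ^ 2 * (1 / 2) ^ k := by
      intro s _
      rw [hgn]
      exact Psi_bound a M hM k s l
    have h1 : Integrable ((Ioo (-2 : ℝ) 2).indicator g) :=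
      memLp_one_iff_integrable.1 (ind_lp measurableSet_Ioo hfin hgm hgb 1)
    have h2 := ind_lp measurableSet_Ioo hfin hgm hgb 2
    have h3 := planch _ h1 h2 (2 * Real.pi) (by positivity)
    have h4 : ∀ ξ, B a k ξ l = ∫ s : ℝ,
        Complex.exp ((((-2 * Real.pi * s * (ξ / (2 * Real.pi))) : ℝ) : ℂ) * I) *
        (Ioo (-2 : ℝ) 2).indicator g s := fun ξ => B_eq a k ξ l
    simp only [h4]
    rw [h3, abs_of_pos (by positivity), ← lintegral_indicator measurableSet_Ioo]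
    congr 1
    refine lintegral_congr fun s => ?_
    by_cases hs : s ∈ Ioo (-2 : ℝ) 2
    · rw [indicator_of_mem hs, indicator_of_mem hs, hgn]
    · rw [indicator_of_notMem hs, indicator_of_notMem hs]
      simp
  simp only [step]
  rw [lintegral_const_mul' _ _ ENNReal.ofReal_ne_top]
  have hswap : ∫⁻ l, ∫⁻ s in Ioo (-2 : ℝ) 2, ENNReal.ofReal (‖Psi a k s l‖ ^ 2) =
      ∫⁻ s in Ioo (-2 : ℝ) 2, ∫⁻ l, ENNReal.ofReal (‖Psi a k s l‖ ^ 2) := by
    apply lintegral_lintegral_swap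
    apply Measurable.aemeasurable
    have e1 : Measurable (fun z : ℝ × ℝ => Psi a k z.2 z.1) := hmeas.comp measurable_swap
    exact ENNReal.measurable_ofReal.comp (e1.norm.pow_const 2)
  rw [hswap]
  calc ENNReal.ofReal (2 * Real.pi) *
        ∫⁻ s in Ioo (-2 : ℝ) 2, ∫⁻ l, ENNReal.ofReal (‖Psi a k s l‖ ^ 2)
      ≤ ENNReal.ofReal (2 * Real.pi) *
        ∫⁻ _s in Ioo (-2 : ℝ) 2, ENNReal.ofReal (3 * Real.pi * M ^ 4) := by
        gcongr with s
        exact Psi_l2 a M ha hM k s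
    _ = ENNReal.ofReal (24 * Real.pi ^ 2 * M ^ 4) := by
        rw [setLIntegral_const, Real.volume_Ioo, ← ENNReal.ofReal_mul (by positivity),
          ← ENNReal.ofReal_mul (by positivity)]
        congr 1
        ring

end Pool.Agent.H438R2.PD
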