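import Mathlib
import Pool.Agent.H72.Lib.S8.H438R2.PD.Defs
import Pool.Agent.H72.Lib.S8.H438R2.PD.A1
import Pool.Agent.H72.Lib.S8.H438R2.PD.A2
set_option autoImplicit false

namespace Pool.Agent.H438R2.PD

open MeasureTheory Set Complex
open scoped ENNReal RealInnerProductSpace
open Pool.Agent.H789R2.FR (E sg)
open Pool.Agent.H438R2.BR (J)

namespace A3

/-- weighted Jensen inequality for series -/
theorem jensen_tsum (q : ℝ) (hq : 1 < q) (b c : ℕ → ℝ≥0∞) (h0 : ∀ k, c k ≠ 0)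
    (h1 : ∀ k, c k ≠ ∞) :
    (∑' k, b k) ^ q ≤ (∑' k, c k) ^ (q - 1) * ∑' k, c k ^ (1 - q) * b k ^ q := by
  have hq0 : 0 < q := by linarith
  have hq1 : 0 < q - 1 := by linarith
  have h := ENNReal.lintegral_mul_le_Lp_mul_Lq (Measure.count : Measure ℕ) (p := q / (q - 1))
    (q := q)
    (by
      rw [Real.holderConjugate_iff]
      refine ⟨?_, ?_⟩
      · rw [lt_div_iff₀ hq1]; linarith
      · field_simp
        ring) (f := fun k => c k ^ ((q - 1) / q)) (g := fun k => c k ^ (-((q - 1) / q)) * b k)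
    (measurable_from_nat).aemeasurable (measurable_from_nat).aemeasurable
  rw [lintegral_count, lintegral_count, lintegral_count] at h
  have e1 : ∀ k, ((fun k => c k ^ ((q - 1) / q)) * fun k => c k ^ (-((q - 1) / q)) * b k) k =
      b k := by
    intro k
    simp only [Pi.mul_apply]
    rw [← mul_assoc, ← ENNReal.rpow_add _ _ (h0 k) (h1 k), add_neg_cancel, ENNReal.rpow_zero,
      one_mul]
  have e2 : ∀ k, (c k ^ ((q - 1) / q)) ^ (q / (q - 1)) = c k := by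
    intro k
    rw [← ENNReal.rpow_mul]
    have : (q - 1) / q * (q / (q - 1)) = 1 := by field_simp
    rw [this, ENNReal.rpow_one]
  have e3 : ∀ k, (c k ^ (-((q - 1) / q)) * b k) ^ q = c k ^ (1 - q) * b k ^ q := by
    intro k
    rw [ENNReal.mul_rpow_of_nonneg _ _ hq0.le, ← ENNReal.rpow_mul]
    congr 2
    field_simp
    ring
  simp only [e1, e2, e3] at h
  calc (∑' k, b k) ^ q ≤ ((∑' k, c k) ^ (1 / (q / (q - 1))) *
        (∑' k, c k ^ (1 - q) * b k ^ q) ^ (1 / q)) ^ q := by gcongr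
    _ = _ := by
        rw [ENNReal.mul_rpow_of_nonneg _ _ hq0.le, ← ENNReal.rpow_mul, ← ENNReal.rpow_mul]
        congr 1
        · congr 1
          field_simp
        · rw [one_div_mul_cancel hq0.ne', ENNReal.rpow_one]

theorem pull (K : ℝ≥0∞) (f : ℝ × ℝ → ℝ≥0∞) (hf : Measurable f) :
    ∫⁻ l, ∫⁻ ξ, K * f (ξ, l) = K * ∫⁻ l, ∫⁻ ξ, f (ξ, l) := by
  have i1 : ∀ l, ∫⁻ ξ, K * f (ξ, l) = K * ∫⁻ ξ, f (ξ, l) := fun l =>
    lintegral_const_mul _ (hf.comp measurable_prodMk_right)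
  simp only [i1]
  rw [lintegral_const_mul _ hf.lintegral_prod_left']

theorem swap (K : ℝ≥0∞) (f : ℕ → ℝ × ℝ → ℝ≥0∞) (hf : ∀ k, Measurable (f k)) :
    ∫⁻ l, ∫⁻ ξ, K * ∑' k, f k (ξ, l) = K * ∑' k, ∫⁻ l, ∫⁻ ξ, f k (ξ, l) := by
  rw [pull K (fun x => ∑' k, f k x) (Measurable.ennreal_tsum hf)]
  congr 1
  have i1 : ∀ l, ∫⁻ ξ, ∑' k, f k (ξ, l) = ∑' k, ∫⁻ ξ, f k (ξ, l) := fun l =>
    lintegral_tsum fun k => ((hf k).comp measurable_prodMk_right).aemeasurable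
  simp only [i1]
  exact lintegral_tsum fun k => (hf k).lintegral_prod_left'.aemeasurable

theorem tsum_geo (r : ℝ) (h0 : 0 ≤ r) (h1 : r < 1) :
    ∑' k : ℕ, ENNReal.ofReal (r ^ k) = ENNReal.ofReal ((1 - r)⁻¹) := by
  rw [← tsum_geometric_of_lt_one h0 h1, ENNReal.ofReal_tsum_of_nonneg (fun k => by positivity)
    (summable_geometric_of_lt_one h0 h1)]

theorem exps (q : ℝ) (hq : 2 < q) (k : ℕ) :
    (((1 / 2 : ℝ) ^ ((q - 2) / (2 * (q - 1)))) ^ k) ^ (1 - q) * ((1 / 2 : ℝ) ^ k) ^ (q - 2) =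
      ((1 / 2 : ℝ) ^ ((q - 2) / 2)) ^ k := by
  have h : (0 : ℝ) < 1 / 2 := by norm_num
  rw [← Real.rpow_natCast, ← Real.rpow_natCast, ← Real.rpow_natCast, ← Real.rpow_mul h.le,
    ← Real.rpow_mul h.le, ← Real.rpow_mul h.le, ← Real.rpow_mul h.le, ← Real.rpow_add h]
  congr 1
  have : q - 1 ≠ 0 := by linarith
  field_simp
  ring

theorem powM (q M : ℝ) (hq : 2 < q) (hM : 0 ≤ M) : (M ^ 2) ^ (q - 2) * M ^ 4 = M ^ (2 * q) := by
  have h1 : (M ^ 2) ^ (q - 2) = M ^ (2 * (q - 2)) := by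
    rw [← Real.rpow_natCast, ← Real.rpow_mul hM]
    norm_num
  have h2 : M ^ 4 = M ^ (4 : ℝ) := by
    rw [← Real.rpow_natCast]; norm_num
  rw [h1, h2, ← Real.rpow_add_of_nonneg hM (by linarith) (by norm_num)]
  congr 1
  ring

theorem E1_restrict (a : ℝ → ℂ) (ξ l : ℝ) :
    E1 ((Ioo (-1 : ℝ) 1).indicator a) ξ l = E1 a ξ l := by
  unfold E1
  refine setIntegral_congr_fun measurableSet_Ioo fun u hu => ?_
  simp only [indicator_of_mem hu]

end A3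

theorem planar_parabola (P : ℝ) (hP : 4 < P) : ∃ C : ℝ, 0 < C ∧ ∀ (a : ℝ → ℂ) (M : ℝ),
    Measurable a → (∀ u, ‖a u‖ ≤ M) →
    ∫⁻ l, ∫⁻ ξ, ENNReal.ofReal (‖E1 a ξ l‖ ^ P) ≤ ENNReal.ofReal (C * M ^ P) := by
  obtain ⟨C, hC, hB⟩ := B_l2
  obtain ⟨q, hq⟩ : ∃ q : ℝ, q = P / 2 := ⟨_, rfl⟩
  have hPq : P = 2 * q := by rw [hq]; ring
  have hq2 : 2 < q := by rw [hq]; linarith
  have hq1 : 1 < q := by linarith
  have hq0 : 0 < q := by linarith
  set e : ℝ := (q - 2) / (2 * (q - 1)) with he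
  have he0 : 0 < e := div_pos (by linarith) (by linarith)
  set r : ℝ := (1 / 2 : ℝ) ^ e with hr
  have hr0 : 0 < r := Real.rpow_pos_of_pos (by norm_num) _
  have hr1 : r < 1 := Real.rpow_lt_one (by norm_num) (by norm_num) he0
  set ρ : ℝ := (1 / 2 : ℝ) ^ ((q - 2) / 2) with hρ
  have hρ0 : 0 < ρ := Real.rpow_pos_of_pos (by norm_num) _
  have hρ1 : ρ < 1 := Real.rpow_lt_one (by norm_num) (by norm_num) (by linarith)
  have hr1' : 0 < 1 - r := by linarith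
  have hρ1' : 0 < 1 - ρ := by linarith
  refine ⟨((1 - r)⁻¹) ^ (q - 1) * ((1 - ρ)⁻¹ * (4 ^ (q - 2) * C)), by positivity,
    fun a₀ M ha₀ hM₀ => ?_⟩
  have hM0 : 0 ≤ M := (norm_nonneg _).trans (hM₀ 0)
  set a : ℝ → ℂ := (Ioo (-1 : ℝ) 1).indicator a₀ with hadef
  have ha : Measurable a := ha₀.indicator measurableSet_Ioo
  have hM : ∀ u, ‖a u‖ ≤ M := by
    intro u
    rw [hadef]
    by_cases hu : u ∈ Ioo (-1 : ℝ) 1
    · rw [indicator_of_mem hu]; exact hM₀ u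
    · rw [indicator_of_notMem hu, norm_zero]; exact hM0
  have hs : ∀ u, u ∉ Ioo (-1 : ℝ) 1 → a u = 0 := fun u hu => indicator_of_notMem hu _
  have hE : ∀ ξ l, E1 a₀ ξ l = E1 a ξ l := fun ξ l => (A3.E1_restrict a₀ ξ l).symm
  simp only [hE]
  set c : ℕ → ℝ≥0∞ := fun k => ENNReal.ofReal (r ^ k) with hc
  have hc0 : ∀ k, c k ≠ 0 := fun k => by
    rw [hc]
    simp only [ne_eq, ENNReal.ofReal_eq_zero, not_le]
    positivity
  have hc1 : ∀ k, c k ≠ ∞ := fun k => ENNReal.ofReal_ne_top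
  have step1 : ∀ l ξ, ENNReal.ofReal (‖E1 a ξ l‖ ^ P) ≤
      (∑' k, c k) ^ (q - 1) * ∑' k, c k ^ (1 - q) * ENNReal.ofReal ‖B a k ξ l‖ ^ q := by
    intro l ξ
    have h1 : ENNReal.ofReal (‖E1 a ξ l‖ ^ P) = ENNReal.ofReal (‖E1 a ξ l‖ ^ 2) ^ q := by
      rw [ENNReal.ofReal_rpow_of_nonneg (by positivity) hq0.le, ← Real.rpow_natCast,
        ← Real.rpow_mul (norm_nonneg _), hPq]
      norm_num
    rw [h1]
    exact (ENNReal.rpow_le_rpow (E1_sq a M ha hM hs ξ l) hq0.le).trans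
      (A3.jensen_tsum q hq1 _ c hc0 hc1)
  have hmeas : ∀ k, Measurable fun x : ℝ × ℝ =>
      c k ^ (1 - q) * ENNReal.ofReal ‖B a k x.1 x.2‖ ^ q := fun k =>
    (((B_meas a ha k).norm.ennreal_ofReal).pow_const q).const_mul _
  have step2 : ∫⁻ l, ∫⁻ ξ, (∑' k, c k) ^ (q - 1) *
      ∑' k, c k ^ (1 - q) * ENNReal.ofReal ‖B a k ξ l‖ ^ q =
      (∑' k, c k) ^ (q - 1) * ∑' k, ∫⁻ l, ∫⁻ ξ,
        c k ^ (1 - q) * ENNReal.ofReal ‖B a k ξ l‖ ^ q := by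
    exact A3.swap ((∑' k, c k) ^ (q - 1))
      (fun k x => c k ^ (1 - q) * ENNReal.ofReal ‖B a k x.1 x.2‖ ^ q) hmeas
  have step3 : ∀ k, ∫⁻ l, ∫⁻ ξ, c k ^ (1 - q) * ENNReal.ofReal ‖B a k ξ l‖ ^ q ≤
      ENNReal.ofReal (ρ ^ k * (4 ^ (q - 2) * C * M ^ P)) := by
    intro k
    set S : ℝ := 4 * M ^ 2 * (1 / 2) ^ k with hS
    have hS0 : 0 ≤ S := by positivity
    have h1 : ∀ l ξ, c k ^ (1 - q) * ENNReal.ofReal ‖B a k ξ l‖ ^ q ≤
        (c k ^ (1 - q) * ENNReal.ofReal (S ^ (q - 2))) * ENNReal.ofReal (‖B a k ξ l‖ ^ 2) := by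
      intro l ξ
      rw [mul_assoc]
      refine mul_le_mul' le_rfl ?_
      rw [ENNReal.ofReal_rpow_of_nonneg (norm_nonneg _) hq0.le,
        ← ENNReal.ofReal_mul (by positivity)]
      refine ENNReal.ofReal_le_ofReal ?_
      have h2 : ‖B a k ξ l‖ ^ q = ‖B a k ξ l‖ ^ (q - 2) * ‖B a k ξ l‖ ^ 2 := by
        rw [← Real.rpow_natCast, ← Real.rpow_add_of_nonneg (norm_nonneg _) (by linarith)
          (by norm_num)]
        congr 1
        push_cast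
        ring
      rw [h2]
      refine mul_le_mul_of_nonneg_right ?_ (by positivity)
      exact Real.rpow_le_rpow (norm_nonneg _) (B_sup a M ha hM k ξ l) (by linarith)
    have hck : c k ^ (1 - q) = ENNReal.ofReal ((r ^ k) ^ (1 - q)) := by
      rw [hc, ENNReal.ofReal_rpow_of_pos (by positivity)]
    calc ∫⁻ l, ∫⁻ ξ, c k ^ (1 - q) * ENNReal.ofReal ‖B a k ξ l‖ ^ q
        ≤ ∫⁻ l, ∫⁻ ξ, (c k ^ (1 - q) * ENNReal.ofReal (S ^ (q - 2))) *
            ENNReal.ofReal (‖B a k ξ l‖ ^ 2) :=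
          lintegral_mono fun l => lintegral_mono fun ξ => h1 l ξ
      _ = (c k ^ (1 - q) * ENNReal.ofReal (S ^ (q - 2))) *
          ∫⁻ l, ∫⁻ ξ, ENNReal.ofReal (‖B a k ξ l‖ ^ 2) := by
          have hm3 : Measurable fun x : ℝ × ℝ => ENNReal.ofReal (‖B a k x.1 x.2‖ ^ 2) :=
            (((B_meas a ha k).norm.pow_const 2)).ennreal_ofReal
          exact A3.pull (c k ^ (1 - q) * ENNReal.ofReal (S ^ (q - 2)))
            (fun x => ENNReal.ofReal (‖B a k x.1 x.2‖ ^ 2)) hm3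
      _ ≤ (c k ^ (1 - q) * ENNReal.ofReal (S ^ (q - 2))) * ENNReal.ofReal (C * M ^ 4) :=
          mul_le_mul' le_rfl (hB a M ha hM k)
      _ = ENNReal.ofReal (ρ ^ k * (4 ^ (q - 2) * C * M ^ P)) := by
          rw [hck, ← ENNReal.ofReal_mul (by positivity), ← ENNReal.ofReal_mul (by positivity)]
          congr 1
          have h3 : S ^ (q - 2) = 4 ^ (q - 2) * (M ^ 2) ^ (q - 2) * ((1 / 2 : ℝ) ^ k) ^ (q - 2) := by
            rw [hS, Real.mul_rpow (by positivity) (by positivity),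
              Real.mul_rpow (by norm_num) (by positivity)]
          have h4 := A3.exps q hq2 k
          rw [← he, ← hr, ← hρ] at h4
          have h5 := A3.powM q M hq2 hM0
          rw [← hPq] at h5
          rw [h3, ← h4, ← h5]
          ring
  calc ∫⁻ l, ∫⁻ ξ, ENNReal.ofReal (‖E1 a ξ l‖ ^ P)
      ≤ ∫⁻ l, ∫⁻ ξ, (∑' k, c k) ^ (q - 1) *
        ∑' k, c k ^ (1 - q) * ENNReal.ofReal ‖B a k ξ l‖ ^ q :=
        lintegral_mono fun l => lintegral_mono fun ξ => step1 l ξ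
    _ = (∑' k, c k) ^ (q - 1) * ∑' k, ∫⁻ l, ∫⁻ ξ,
        c k ^ (1 - q) * ENNReal.ofReal ‖B a k ξ l‖ ^ q := step2
    _ ≤ (∑' k, c k) ^ (q - 1) * ∑' k, ENNReal.ofReal (ρ ^ k * (4 ^ (q - 2) * C * M ^ P)) :=
        mul_le_mul' le_rfl (ENNReal.tsum_le_tsum step3)
    _ = ENNReal.ofReal (((1 - r)⁻¹) ^ (q - 1) * ((1 - ρ)⁻¹ * (4 ^ (q - 2) * C)) * M ^ P) := by
        have h6 : ∀ k : ℕ, ENNReal.ofReal (ρ ^ k * (4 ^ (q - 2) * C * M ^ P)) =
            ENNReal.ofReal (ρ ^ k) * ENNReal.ofReal (4 ^ (q - 2) * C * M ^ P) := fun k =>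
          ENNReal.ofReal_mul (by positivity)
        simp only [h6]
        rw [ENNReal.tsum_mul_right, A3.tsum_geo ρ hρ0.le hρ1, hc, A3.tsum_geo r hr0.le hr1,
          ENNReal.ofReal_rpow_of_nonneg (by positivity) (by linarith),
          ← ENNReal.ofReal_mul (by positivity), ← ENNReal.ofReal_mul (by positivity)]
        congr 1
        ring

end Pool.Agent.H438R2.PD
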