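import Pool.Agent.H72.Lib.S8.H438R2.PD.Defs
set_option autoImplicit false

/-! A5: tensor products. -/

namespace Pool.Agent.H438R2.PD.A5

open MeasureTheory Set Complex
open scoped ENNReal RealInnerProductSpace
open Pool.Agent.H789R2.FR (E sg)
open Pool.Agent.H438R2.BR (J)

/-- Fubini for products of functions of one variable -/
theorem lint_fin {n : ℕ} (f : Fin n → ℝ → ℝ≥0∞) (hf : ∀ i, Measurable (f i)) :
    ∫⁻ x : Fin n → ℝ, ∏ i, f i (x i) = ∏ i, ∫⁻ x, f i x := by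
  induction n with
  | zero =>
    simp [volume_pi]
  | succ n ih =>
    have h1 := (volume_preserving_piFinSuccAbove (fun _ : Fin (n + 1) => ℝ) 0).symm
    rw [← h1.lintegral_comp_emb (MeasurableEquiv.measurableEmbedding _)]
    have h4 : ∀ z : ℝ × (Fin n → ℝ), (∏ i, f i
        ((MeasurableEquiv.piFinSuccAbove (fun _ : Fin (n + 1) => ℝ) 0).symm z i)) =
        f 0 z.1 * ∏ i, f (Fin.succ i) (z.2 i) := by
      intro z
      rw [Fin.prod_univ_succ]
      rfl
    simp_rw [h4]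
    rw [Fin.prod_univ_succ]
    have h2 : (volume : Measure (ℝ × (Fin n → ℝ))) = (volume : Measure ℝ).prod volume := rfl
    have h3 : Measurable (fun x : Fin n → ℝ => ∏ i, f (Fin.succ i) (x i)) := by
      apply Finset.measurable_prod
      intro i _
      exact (hf _).comp (measurable_pi_apply i)
    rw [← ih (fun i => f (Fin.succ i)) (fun i => hf _), h2,
      lintegral_prod_mul (hf 0).aemeasurable h3.aemeasurable]

theorem lint_E {n : ℕ} (f : Fin n → ℝ → ℝ≥0∞) (hf : ∀ i, Measurable (f i)) :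
    ∫⁻ x : E n, ∏ i, f i (x i) = ∏ i, ∫⁻ x, f i x := by
  rw [← lint_fin f hf]
  have h1 := (PiLp.volume_preserving_ofLp (Fin n))
  have h3 : Measurable (fun x : Fin n → ℝ => ∏ i, f i (x i)) := by
    apply Finset.measurable_prod
    intro i _
    exact (hf _).comp (measurable_pi_apply i)
  rw [← h1.lintegral_comp h3]

theorem jensenp {α : Type*} [MeasurableSpace α] (ν : Measure α) (g : α → ℝ≥0∞)
    (hg : AEMeasurable g ν) (p : ℝ) (hp : 1 < p) :
    (∫⁻ x, g x ∂ν) ^ p ≤ (ν univ) ^ (p - 1) * ∫⁻ x, g x ^ p ∂ν := by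
  have hp0 : 0 < p := by linarith
  have hp1 : 0 < p - 1 := by linarith
  have h := ENNReal.lintegral_mul_le_Lp_mul_Lq ν (p := p / (p - 1)) (q := p)
    (by
      rw [Real.holderConjugate_iff]
      refine ⟨?_, ?_⟩
      · rw [lt_div_iff₀ hp1]; linarith
      · field_simp
        ring) (f := fun _ => 1) (g := g) aemeasurable_const hg
  simp only [Pi.mul_apply, one_mul, ENNReal.one_rpow, lintegral_const] at h
  calc (∫⁻ x, g x ∂ν) ^ p ≤ ((ν univ) ^ (1 / (p / (p - 1))) *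
        (∫⁻ x, g x ^ p ∂ν) ^ (1 / p)) ^ p := by gcongr
    _ = _ := by
        rw [ENNReal.mul_rpow_of_nonneg _ _ hp0.le, ← ENNReal.rpow_mul, ← ENNReal.rpow_mul]
        congr 1
        · congr 1
          field_simp
        · rw [one_div_mul_cancel hp0.ne', ENNReal.rpow_one]

/-- Minkowski's integral inequality -/
theorem mink {α β : Type*} [MeasurableSpace α] [MeasurableSpace β] (μ : Measure α)
    (ν : Measure β) [SFinite μ] [SFinite ν] (g : α → β → ℝ≥0∞)
    (hg : Measurable (Function.uncurry g)) (q : ℝ) (hq : 1 < q) :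
    ∫⁻ x, (∫⁻ y, g x y ∂ν) ^ q ∂μ ≤ (∫⁻ y, (∫⁻ x, g x y ^ q ∂μ) ^ (1 / q) ∂ν) ^ q := by
  have hq0 : 0 < q := by linarith
  set W : β → ℝ≥0∞ := fun y => (∫⁻ x, g x y ^ q ∂μ) ^ (1 / q) with hW
  have hgq : Measurable (Function.uncurry fun x y => g x y ^ q) := hg.pow_const q
  have hWm : Measurable W := by
    have : Measurable (fun y => ∫⁻ x, g x y ^ q ∂μ) := hgq.lintegral_prod_left'
    exact this.pow_const _
  have hWq : ∀ y, W y ^ q = ∫⁻ x, g x y ^ q ∂μ := by
    intro y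
    rw [hW]
    simp only
    rw [← ENNReal.rpow_mul, one_div_mul_cancel hq0.ne', ENNReal.rpow_one]
  by_cases hI : ∫⁻ y, W y ∂ν = ∞
  · rw [hI, ENNReal.top_rpow_of_pos hq0]
    exact le_top
  have hWfin : ∀ᵐ y ∂ν, W y < ∞ := ae_lt_top hWm hI
  -- where `W = 0`
  have hzero : ∀ᵐ x ∂μ, ∀ᵐ y ∂ν, W y = 0 → g x y = 0 := by
    have h1 : ∀ᵐ y ∂ν, ∀ᵐ x ∂μ, W y = 0 → g x y = 0 := by
      refine Filter.Eventually.of_forall fun y => ?_
      by_cases h : W y = 0
      · have h2 : ∫⁻ x, g x y ^ q ∂μ = 0 := by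
          rw [← hWq y, h, ENNReal.zero_rpow_of_pos hq0]
        rw [lintegral_eq_zero_iff (by
          exact (hg.comp (measurable_id.prodMk measurable_const)).pow_const q)] at h2
        filter_upwards [h2] with x hx _
        simpa [hq0, hq0.le, not_lt.mpr hq0.le] using hx
      · exact Filter.Eventually.of_forall fun x h' => absurd h' h
    have hS : MeasurableSet {z : α × β | W z.2 = 0 → g z.1 z.2 = 0} := by
      have e : {z : α × β | W z.2 = 0 → g z.1 z.2 = 0} =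
          {z : α × β | W z.2 = 0}ᶜ ∪ {z : α × β | g z.1 z.2 = 0} := by
        ext z
        simp only [mem_ofPred_eq, mem_union, mem_compl_iff]
        tauto
      rw [e]
      exact ((hWm.comp measurable_snd) (measurableSet_singleton 0)).compl.union
        (hg (measurableSet_singleton 0))
    have h3 := (Measure.ae_ae_comm (μ := μ) (ν := ν) (p := fun x y => W y = 0 → g x y = 0) hS).mpr h1
    exact h3
  have key : ∀ᵐ x ∂μ, (∫⁻ y, g x y ∂ν) ^ q ≤
      (∫⁻ y, W y ∂ν) ^ (q - 1) * ∫⁻ y, W y * (g x y / W y) ^ q ∂ν := by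
    filter_upwards [hzero] with x hx
    have hgx : Measurable (g x) := hg.comp (measurable_const.prodMk measurable_id)
    have hdm : Measurable (fun y => g x y / W y) := hgx.div hWm
    have hdq : Measurable (fun y => (g x y / W y) ^ q) := hdm.pow_const q
    have h1 : ∫⁻ y, g x y ∂ν = ∫⁻ y, (g x y / W y) ∂(ν.withDensity W) := by
      rw [lintegral_withDensity_eq_lintegral_mul _ hWm hdm]
      refine lintegral_congr_ae ?_
      filter_upwards [hx, hWfin] with y hy hy'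
      simp only [Pi.mul_apply]
      by_cases h : W y = 0
      · rw [hy h, h]; simp
      · rw [ENNReal.mul_div_cancel h hy'.ne]
    have h2 := jensenp (ν.withDensity W) (fun y => g x y / W y) hdm.aemeasurable q hq
    rw [withDensity_apply _ MeasurableSet.univ, setLIntegral_univ,
      lintegral_withDensity_eq_lintegral_mul _ hWm hdq] at h2
    rw [h1]
    exact h2
  calc ∫⁻ x, (∫⁻ y, g x y ∂ν) ^ q ∂μ
      ≤ ∫⁻ x, (∫⁻ y, W y ∂ν) ^ (q - 1) * ∫⁻ y, W y * (g x y / W y) ^ q ∂ν ∂μ :=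
        lintegral_mono_ae key
    _ = (∫⁻ y, W y ∂ν) ^ (q - 1) * ∫⁻ x, ∫⁻ y, W y * (g x y / W y) ^ q ∂ν ∂μ := by
        rw [lintegral_const_mul']
        exact ENNReal.rpow_ne_top_of_nonneg (by linarith) hI
    _ = (∫⁻ y, W y ∂ν) ^ (q - 1) * ∫⁻ y, ∫⁻ x, W y * (g x y / W y) ^ q ∂μ ∂ν := by
        rw [lintegral_lintegral_swap]
        have hm : Measurable (Function.uncurry fun x y => W y * (g x y / W y) ^ q) :=
          (hWm.comp measurable_snd).mul ((hg.div (hWm.comp measurable_snd)).pow_const q)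
        exact hm.aemeasurable
    _ ≤ (∫⁻ y, W y ∂ν) ^ (q - 1) * ∫⁻ y, W y ∂ν := by
        gcongr with y
        have h1 : ∀ x, W y * (g x y / W y) ^ q = (W y * (W y)⁻¹ ^ q) * g x y ^ q := by
          intro x
          rw [div_eq_mul_inv, ENNReal.mul_rpow_of_nonneg _ _ hq0.le]
          ring
        have hgy : Measurable (fun x => g x y ^ q) :=
          (hg.comp (measurable_id.prodMk measurable_const)).pow_const q
        simp_rw [h1]
        rw [lintegral_const_mul _ hgy, ← hWq y, mul_assoc,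
          ← ENNReal.mul_rpow_of_nonneg _ _ hq0.le]
        have h2 : (W y)⁻¹ * W y ≤ 1 := by
          rw [mul_comm]; exact ENNReal.mul_inv_le_one _
        calc W y * ((W y)⁻¹ * W y) ^ q ≤ W y * 1 ^ q := by gcongr
          _ = W y := by rw [ENNReal.one_rpow, mul_one]
    _ = (∫⁻ y, W y ∂ν) ^ q := by
        conv_lhs => rw [← ENNReal.rpow_one (∫⁻ y, W y ∂ν)]
        rw [← ENNReal.rpow_mul, ← ENNReal.rpow_add_of_nonneg _ _ (by linarith) (by norm_num)]
        congr 1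
        ring

/-- tensor products, from the measurability of `E1` and the mixed norm bound -/
theorem tensor_of (m : ℕ) (hm : 3 ≤ m) (p : ℝ) (hp : 2 * (m : ℝ) / (m - 1) < p)
    (hE : ∀ a : ℝ → ℂ, Measurable a → Measurable fun q : ℝ × ℝ => E1 a q.1 q.2)
    (hmix : ∃ C : ℝ, 0 < C ∧ ∀ (a : ℝ → ℂ) (M : ℝ), Measurable a → (∀ u, ‖a u‖ ≤ M) →
      ∫⁻ l, (∫⁻ ξ, ENNReal.ofReal (‖E1 a ξ l‖ ^ p)) ^ (2 * (m : ℝ) / p) ≤
        ENNReal.ofReal (C * M ^ (2 * m))) :
    ∃ C : ℝ, 0 < C ∧ ∀ (a : Fin m → ℝ → ℂ) (M : ℝ), (∀ j, Measurable (a j)) →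
    (∀ j u, ‖a j u‖ ≤ M) →
    ∫⁻ ξ : E m, (∫⁻ l, ENNReal.ofReal (∏ j, ‖E1 (a j) (ξ j) l‖ ^ 2)) ^ (p / 2) ≤
      ENNReal.ofReal (C * (M ^ m) ^ p) := by
  have hm3 : (3 : ℝ) ≤ m := by exact_mod_cast hm
  have hm1 : (0 : ℝ) < (m : ℝ) - 1 := by linarith
  have hm0 : (0 : ℝ) < (m : ℝ) := by linarith
  have hp2 : 2 < p := by
    refine lt_of_lt_of_le ?_ hp.le
    rw [lt_div_iff₀ hm1]
    linarith
  have hp0 : 0 < p := by linarith
  have hq : 1 < p / 2 := by linarith
  have hq0 : 0 < p / 2 := by linarith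
  obtain ⟨C, hC, hmix⟩ := hmix
  refine ⟨C ^ (p / 2), Real.rpow_pos_of_pos hC _, ?_⟩
  intro a M ha hM
  have hM0 : 0 ≤ M := (norm_nonneg _).trans (hM ⟨0, by omega⟩ 0)
  have hEj : ∀ j, Measurable fun q : ℝ × ℝ => E1 (a j) q.1 q.2 := fun j => hE (a j) (ha j)
  set g : E m → ℝ → ℝ≥0∞ := fun ξ l => ENNReal.ofReal (∏ j, ‖E1 (a j) (ξ j) l‖ ^ 2) with hg
  have hcoord : ∀ j : Fin m, Measurable (fun z : E m × ℝ => z.1 j) := by
    intro j
    exact ((measurable_pi_apply j).comp (PiLp.volume_preserving_ofLp (Fin m)).measurable).comp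
      measurable_fst
  have hgm : Measurable (Function.uncurry g) := by
    apply ENNReal.measurable_ofReal.comp
    apply Finset.measurable_prod
    intro j _
    exact ((hEj j).comp ((hcoord j).prodMk measurable_snd)).norm.pow_const 2
  set U : Fin m → ℝ → ℝ≥0∞ := fun j l => ∫⁻ ξ, ENNReal.ofReal (‖E1 (a j) ξ l‖ ^ p) with hU
  have hUm : ∀ j, Measurable (U j) := by
    intro j
    have h1 : Measurable (Function.uncurry fun ξ l => ENNReal.ofReal (‖E1 (a j) ξ l‖ ^ p)) :=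
      ENNReal.measurable_ofReal.comp ((hEj j).norm.pow_const p)
    exact h1.lintegral_prod_left'
  have h1 : ∀ l, (∫⁻ ξ, g ξ l ^ (p / 2)) ^ (1 / (p / 2)) =
      ∏ j, (U j l ^ (2 * (m : ℝ) / p)) ^ (1 / (m : ℝ)) := by
    intro l
    have h2 : ∀ ξ : E m, g ξ l ^ (p / 2) = ∏ j, ENNReal.ofReal (‖E1 (a j) (ξ j) l‖ ^ p) := by
      intro ξ
      rw [hg]
      simp only
      rw [ENNReal.ofReal_rpow_of_nonneg (Finset.prod_nonneg fun j _ => by positivity) hq0.le,
        ← Real.finsetProd_rpow _ _ (fun j _ => by positivity),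
        ENNReal.ofReal_prod_of_nonneg (fun j _ => by positivity)]
      refine Finset.prod_congr rfl fun j _ => ?_
      congr 1
      rw [← Real.rpow_natCast, ← Real.rpow_mul (norm_nonneg _)]
      congr 1
      push_cast
      ring
    simp_rw [h2]
    rw [lint_E (fun j x => ENNReal.ofReal (‖E1 (a j) x l‖ ^ p)) (fun j =>
      ENNReal.measurable_ofReal.comp
        (((hEj j).comp (measurable_id.prodMk measurable_const)).norm.pow_const p)),
      ← ENNReal.prod_rpow_of_nonneg (by positivity)]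
    refine Finset.prod_congr rfl fun j _ => ?_
    rw [← ENNReal.rpow_mul]
    congr 1
    field_simp
  have h3 : ∫⁻ l, (∫⁻ ξ, g ξ l ^ (p / 2)) ^ (1 / (p / 2)) ≤
      ENNReal.ofReal (C * M ^ (2 * m)) := by
    simp_rw [h1]
    refine (ENNReal.lintegral_prod_norm_pow_le (μ := volume) Finset.univ
      (f := fun j l => U j l ^ (2 * (m : ℝ) / p)) (fun j _ => ((hUm j).pow_const _).aemeasurable)
      (p := fun _ => 1 / (m : ℝ)) ?_ (fun j _ => by positivity)).trans ?_
    · rw [Finset.sum_const, Finset.card_univ, Fintype.card_fin, nsmul_eq_mul]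
      field_simp
    · calc ∏ j, (∫⁻ l, U j l ^ (2 * (m : ℝ) / p)) ^ (1 / (m : ℝ))
          ≤ ∏ _j : Fin m, (ENNReal.ofReal (C * M ^ (2 * m))) ^ (1 / (m : ℝ)) := by
            apply Finset.prod_le_prod'
            intro j _
            exact ENNReal.rpow_le_rpow (hmix (a j) M (ha j) (hM j)) (by positivity)
        _ = ENNReal.ofReal (C * M ^ (2 * m)) := by
            rw [Finset.prod_const, Finset.card_univ, Fintype.card_fin, ← ENNReal.rpow_natCast,
              ← ENNReal.rpow_mul, one_div_mul_cancel hm0.ne', ENNReal.rpow_one]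
  calc ∫⁻ ξ : E m, (∫⁻ l, g ξ l) ^ (p / 2)
      ≤ (∫⁻ l, (∫⁻ ξ, g ξ l ^ (p / 2)) ^ (1 / (p / 2))) ^ (p / 2) :=
        mink volume volume g hgm (p / 2) hq
    _ ≤ (ENNReal.ofReal (C * M ^ (2 * m))) ^ (p / 2) := ENNReal.rpow_le_rpow h3 hq0.le
    _ = ENNReal.ofReal (C ^ (p / 2) * (M ^ m) ^ p) := by
        rw [ENNReal.ofReal_rpow_of_nonneg (by positivity) hq0.le]
        congr 1
        rw [Real.mul_rpow hC.le (by positivity)]
        congr 1
        have e : M ^ (2 * m) = (M ^ m) ^ (2 : ℝ) := by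
          rw [Real.rpow_two, ← pow_mul, mul_comm]
        rw [e, ← Real.rpow_mul (by positivity)]
        congr 1
        ring

theorem E1m (a : ℝ → ℂ) (ha : Measurable a) : Measurable fun q : ℝ × ℝ => E1 a q.1 q.2 := by
  have h : Measurable (Function.uncurry fun (q : ℝ × ℝ) (u : ℝ) =>
      a u * Complex.exp (((q.2 * u ^ 2 - q.1 * u : ℝ) : ℂ) * I)) := by
    apply (ha.comp measurable_snd).mul
    fun_prop
  exact (h.stronglyMeasurable.integral_prod_right
    (ν := volume.restrict (Ioo (-1 : ℝ) 1))).measurable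

/-- tensor products, from the mixed norm bound -/
theorem tensor_of_mixed (m : ℕ) (hm : 3 ≤ m) (p : ℝ) (hp : 2 * (m : ℝ) / (m - 1) < p)
    (hmix : ∃ C : ℝ, 0 < C ∧ ∀ (a : ℝ → ℂ) (M : ℝ), Measurable a → (∀ u, ‖a u‖ ≤ M) →
      ∫⁻ l, (∫⁻ ξ, ENNReal.ofReal (‖E1 a ξ l‖ ^ p)) ^ (2 * (m : ℝ) / p) ≤
        ENNReal.ofReal (C * M ^ (2 * m))) :
    ∃ C : ℝ, 0 < C ∧ ∀ (a : Fin m → ℝ → ℂ) (M : ℝ), (∀ j, Measurable (a j)) →
    (∀ j u, ‖a j u‖ ≤ M) →
    ∫⁻ ξ : E m, (∫⁻ l, ENNReal.ofReal (∏ j, ‖E1 (a j) (ξ j) l‖ ^ 2)) ^ (p / 2) ≤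
      ENNReal.ofReal (C * (M ^ m) ^ p) :=
  tensor_of m hm p hp E1m hmix

end Pool.Agent.H438R2.PD.A5
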