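import Mathlib
import Pool.Agent.H72.Lib.S8.H438R2.PD.A3
import Pool.Agent.H72.Lib.S8.H438R2.PD.A4
import Pool.Agent.H72.Lib.S8.H438R2.PD.A5
import Pool.Agent.H72.Lib.S8.H438R2.PD.A6
import Pool.Agent.H72.Lib.S8.H438R2.PD.A8
set_option autoImplicit false

namespace Pool.Agent.H438R2.PD

open MeasureTheory Set Complex
open scoped ENNReal RealInnerProductSpace
open Pool.Agent.H789R2.FR (E sg)
open Pool.Agent.H438R2.BR (J)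

theorem mixed (m : ℕ) (hm : 3 ≤ m) (p : ℝ) (hp : 2 * (m : ℝ) / (m - 1) < p) (hp2 : p < 2 * m) :
    ∃ C : ℝ, 0 < C ∧ ∀ (a : ℝ → ℂ) (M : ℝ), Measurable a → (∀ u, ‖a u‖ ≤ M) →
    ∫⁻ l, (∫⁻ ξ, ENNReal.ofReal (‖E1 a ξ l‖ ^ p)) ^ (2 * (m : ℝ) / p) ≤
      ENNReal.ofReal (C * M ^ (2 * m)) :=
  A4.mixed_of planar_parabola m hm p hp hp2

theorem tensor (m : ℕ) (hm : 3 ≤ m) (p : ℝ) (hp : 2 * (m : ℝ) / (m - 1) < p) (hp2 : p < 2 * m) :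
    ∃ C : ℝ, 0 < C ∧ ∀ (a : Fin m → ℝ → ℂ) (M : ℝ), (∀ j, Measurable (a j)) →
    (∀ j u, ‖a j u‖ ≤ M) →
    ∫⁻ ξ : E m, (∫⁻ l, ENNReal.ofReal (∏ j, ‖E1 (a j) (ξ j) l‖ ^ 2)) ^ (p / 2) ≤
      ENNReal.ofReal (C * (M ^ m) ^ p) :=
  A5.tensor_of_mixed m hm p hp (mixed m hm p hp hp2)

end Pool.Agent.H438R2.PD
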