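import Mathlib
import Pool.Agent.H72.Lib.S8.H438R2.PD.Main
import Pool.Agent.H72.Lib.S8.H438R2.PD.A7
import Pool.Agent.H72.Lib.S8.H438R2.BR.T11
set_option autoImplicit false

/-! Assembly for product densities. -/

namespace Pool.Agent.H438R2.PD

open MeasureTheory Set Complex
open scoped ENNReal RealInnerProductSpace
open Pool.Agent.H789R2.FR (E sg T sg_ae sg_inv sg_finite)
open Pool.Agent.H438R2.BR (J J_mp)

/-- the density `a_1(x_1) ... a_m(x_m) b(y)` -/
noncomputable def gp {m d : ℕ} (a : Fin m → ℝ → ℂ) (b : E d → ℂ) (z : E (m + d)) : ℂ :=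
  ten a (P1 m d z) * b (P2 m d z)

theorem ten_meas {m : ℕ} (a : Fin m → ℝ → ℂ) (ha : ∀ j, Measurable (a j)) :
    Measurable (ten a) := by
  unfold ten
  apply Finset.measurable_fun_prod
  intro j _
  exact (ha j).comp (by fun_prop)

theorem P1_meas (m d : ℕ) : Measurable (P1 m d) := by
  unfold P1
  fun_prop

theorem P2_meas (m d : ℕ) : Measurable (P2 m d) := by
  unfold P2
  fun_prop

theorem gp_meas {m d : ℕ} (a : Fin m → ℝ → ℂ) (b : E d → ℂ) (ha : ∀ j, Measurable (a j))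
    (hb : Measurable b) : Measurable (gp a b) :=
  ((ten_meas a ha).comp (P1_meas m d)).mul (hb.comp (P2_meas m d))

theorem ten_le {m : ℕ} (a : Fin m → ℝ → ℂ) (M : ℝ) (hM : ∀ j u, ‖a j u‖ ≤ M) (x : E m) :
    ‖ten a x‖ ≤ M ^ m := by
  unfold ten
  rw [norm_prod]
  calc ∏ j, ‖a j (x j)‖ ≤ ∏ _j : Fin m, M :=
        Finset.prod_le_prod (fun _ _ => norm_nonneg _) (fun j _ => hM j _)
    _ = M ^ m := by simp

theorem T_meas' {n : ℕ} (g : E n → ℂ) (hg : Measurable g) : Measurable (T g) := by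
  unfold T
  have : IsFiniteMeasure (sg n) := sg_finite _
  apply StronglyMeasurable.measurable
  apply StronglyMeasurable.integral_prod_right (f := fun (x z : E n) =>
    Complex.exp (-((⟪x, z⟫ : ℝ) : ℂ) * I) * g z)
  apply Measurable.stronglyMeasurable
  change Measurable fun p : E n × E n =>
    Complex.exp (-((⟪p.1, p.2⟫ : ℝ) : ℂ) * I) * g p.2
  have h1 : Measurable fun p : E n × E n => g p.2 := hg.comp measurable_snd
  have h2 : Measurable fun p : E n × E n => (⟪p.1, p.2⟫ : ℝ) :=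
    (continuous_inner (𝕜 := ℝ)).measurable
  have h3 : Measurable fun p : E n × E n =>
      Complex.exp (-((⟪p.1, p.2⟫ : ℝ) : ℂ) * I) :=
    Complex.measurable_exp.comp ((Complex.measurable_ofReal.comp h2).neg.mul_const I)
  exact h3.mul h1

theorem exp_norm (t : ℝ) : ‖Complex.exp (-(t : ℂ) * I)‖ = 1 := by
  have h : -(t : ℂ) * I = ((-t : ℝ) : ℂ) * I := by push_cast; ring
  rw [h, Complex.norm_exp_ofReal_mul_I]

theorem T_le {n : ℕ} (g : E n → ℂ) (M : ℝ) (hM : ∀ w, ‖g w‖ ≤ M) (x : E n) :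
    ‖T g x‖ ≤ M * (sg n).real univ := by
  have : IsFiniteMeasure (sg n) := sg_finite _
  unfold T
  apply norm_integral_le_of_norm_le_const
  refine Filter.Eventually.of_forall fun z => ?_
  rw [norm_mul, exp_norm, one_mul]
  exact hM _

theorem T_comp {n : ℕ} (L : E n ≃ₗᵢ[ℝ] E n) (g : E n → ℂ) (x : E n) :
    T (fun w => g (L w)) x = T g (L x) := by
  unfold T
  rw [← (sg_inv L).integral_comp L.toHomeomorph.measurableEmbedding
    (fun z => Complex.exp (-((⟪L x, z⟫ : ℝ) : ℂ) * I) * g z)]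
  congr 1
  ext w
  rw [L.inner_map_map]

theorem T_comp_int {n : ℕ} (L : E n ≃ₗᵢ[ℝ] E n) (g : E n → ℂ) (hg : Measurable g) (p : ℝ) :
    ∫⁻ x, ENNReal.ofReal (‖T (fun w => g (L w)) x‖ ^ p) =
      ∫⁻ x, ENNReal.ofReal (‖T g x‖ ^ p) := by
  simp_rw [T_comp]
  exact L.measurePreserving.lintegral_comp ((T_meas' g hg).norm.pow_const p).ennreal_ofReal

theorem bound_pd (m d : ℕ) (hm : 3 ≤ m) (hd : 1 ≤ d) (p : ℝ) (hp : 2 * (m : ℝ) / (m - 1) < p)
    (hp2 : p < 2 * m) : ∃ C : ℝ, 0 < C ∧ ∀ (a : Fin m → ℝ → ℂ) (b : E d → ℂ) (M K L : ℝ),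
    (∀ j, Measurable (a j)) → Measurable b → (∀ j u, ‖a j u‖ ≤ M) → (∀ y, ‖b y‖ ≤ K) →
    (∀ j u, u ∉ Ioo (-1 : ℝ) 1 → a j u = 0) → 0 ≤ L →
    (∀ y, ‖y‖ < 1 → ‖b y‖ ^ 2 * ‖y‖ ^ (d - 1) ≤ L * ‖y‖) →
    ∫⁻ z, ENNReal.ofReal (‖T (gp a b) z‖ ^ p) ≤
      ENNReal.ofReal (C * (M ^ m) ^ p * L ^ (p / 2)) := by
  have hmr : (3 : ℝ) ≤ m := by exact_mod_cast hm
  have hp22 : 2 ≤ p := by
    rw [div_lt_iff₀ (by linarith)] at hp
    nlinarith
  have hp0 : 0 < p := by linarith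
  obtain ⟨C1, hC1, hten⟩ := tensor m hm p hp hp2
  obtain ⟨C2, hC2, hprof⟩ := profile d hd p hp22
  refine ⟨C2 ^ (p / 2) * C1, by positivity, ?_⟩
  intro a b M K L ha hb hM hK hs hL hbL
  have hM0 : 0 ≤ M := (norm_nonneg _).trans (hM ⟨0, by omega⟩ 0)
  have hgm := gp_meas a b ha hb
  have hmeas : Measurable fun z : E (m + d) => ENNReal.ofReal (‖T (gp a b) z‖ ^ p) :=
    ((T_meas' _ hgm).norm.pow_const p).ennreal_ofReal
  have hJm : Measurable fun q : E m × E d => J q.1 q.2 := (J_mp m d).measurable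
  rw [← (J_mp m d).lintegral_comp hmeas, lintegral_prod]
  · calc ∫⁻ x : E m, ∫⁻ y : E d, ENNReal.ofReal (‖T (gp a b) (J x y)‖ ^ p)
        ≤ ∫⁻ x : E m, (ENNReal.ofReal (C2 * L) *
          ∫⁻ l, ENNReal.ofReal (∏ j, ‖E1 (a j) (x j) l‖ ^ 2)) ^ (p / 2) := by
          apply lintegral_mono
          intro x
          have h1 : ∀ y : E d, T (gp a b) (J x y) =
              ∫ y' in Metric.ball (0 : E d) 1,
                2 * (Ioi (0 : ℝ)).indicator (hh a x) (1 - ‖y'‖ ^ 2) * b y' *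
                Complex.exp (-((⟪y', y⟫ : ℝ) : ℂ) * I) := by
            intro y
            rw [show T (gp a b) (J x y) = _ from repr m d (by omega) hd a b M K ha hb hM hK x y]
            apply setIntegral_congr_fun measurableSet_ball
            intro y' hy'
            have h2 : ‖y'‖ < 1 := by simpa using hy'
            have h3 : 1 - ‖y'‖ ^ 2 ∈ Ioi (0 : ℝ) := by
              rw [mem_Ioi]
              nlinarith [norm_nonneg y']
            simp only [indicator_of_mem h3]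
          simp only [h1]
          obtain ⟨K1, _, hK1, _⟩ := hh_bdd (by omega) a M ha hM hs x
          refine (hprof ((Ioi (0 : ℝ)).indicator (hh a x)) b L
            ((hh_meas a ha x).indicator measurableSet_Ioi) hb
            ⟨K1, fun w => ?_⟩ ⟨K, hK⟩ hbL).trans ?_
          · by_cases hw : w ∈ Ioi (0 : ℝ)
            · rw [indicator_of_mem hw]; exact hK1 w (le_of_lt hw)
            · rw [indicator_of_notMem hw, norm_zero]
              exact (norm_nonneg _).trans (hK1 0 le_rfl)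
          apply ENNReal.rpow_le_rpow _ (by positivity)
          apply mul_le_mul_right
          refine le_trans ?_ (push (by omega) a M ha hM hs x)
          refine le_trans (le_of_eq ?_) (lintegral_mono_set (fun w (hw : w ∈ Ioo (0 : ℝ) 1) => hw.1))
          apply setLIntegral_congr_fun measurableSet_Ioo
          intro w hw
          have h3 : w ∈ Ioi (0 : ℝ) := hw.1
          simp only [indicator_of_mem h3]
      _ = ENNReal.ofReal (C2 * L) ^ (p / 2) * ∫⁻ x : E m,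
          (∫⁻ l, ENNReal.ofReal (∏ j, ‖E1 (a j) (x j) l‖ ^ 2)) ^ (p / 2) := by
          rw [← lintegral_const_mul']
          · congr 1
            ext x
            rw [ENNReal.mul_rpow_of_nonneg _ _ (by positivity)]
          · exact ENNReal.rpow_ne_top_of_nonneg (by positivity) ENNReal.ofReal_ne_top
      _ ≤ ENNReal.ofReal (C2 * L) ^ (p / 2) * ENNReal.ofReal (C1 * (M ^ m) ^ p) := by
          gcongr
          exact hten a M ha hM
      _ = _ := by
          rw [ENNReal.ofReal_rpow_of_nonneg (by positivity) (by positivity),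
            ← ENNReal.ofReal_mul (by positivity), Real.mul_rpow hC2.le hL]
          congr 1
          ring
  · exact (hmeas.comp hJm).aemeasurable

theorem P1_J {m d : ℕ} (x : E m) (y : E d) : P1 m d (J x y) = x := by
  unfold P1 J
  ext i
  simp [Fin.append_left]

theorem P2_J {m d : ℕ} (x : E m) (y : E d) : P2 m d (J x y) = y := by
  unfold P2 J
  ext i
  simp [Fin.append_right]

theorem P1_lt (m d : ℕ) (hm : 1 ≤ m) (hd : 1 ≤ d) : ∀ᵐ z ∂(sg (m + d)), ‖P1 m d z‖ < 1 := by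
  rw [BR.T11.sg_eq m d hm hd]
  have hms : MeasurableSet {z : E (m + d) | ‖P1 m d z‖ < 1} :=
    measurableSet_lt (P1_meas m d).norm measurable_const
  rw [ae_map_iff (BR.T11.par_meas m d).aemeasurable hms]
  have f1 : IsFiniteMeasure (sg m) := sg_finite _
  have f2 : IsFiniteMeasure (sg d) := sg_finite _
  have h1 : ∀ᵐ q : ℝ × (E m × E d) ∂((BR.T11.nu m d).prod ((sg m).prod (sg d))),
      q.1 ∈ BR.Q := by
    apply Measure.quasiMeasurePreserving_fst.ae
    unfold BR.T11.nu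
    apply (withDensity_absolutelyContinuous _ _).ae_le
    exact ae_restrict_mem measurableSet_Ioo
  have h2 : ∀ᵐ q : ℝ × (E m × E d) ∂((BR.T11.nu m d).prod ((sg m).prod (sg d))),
      ‖q.2.1‖ = 1 := by
    have h3 : ∀ᵐ q : E m × E d ∂((sg m).prod (sg d)), ‖q.1‖ = 1 :=
      Measure.quasiMeasurePreserving_fst.ae (sg_ae m)
    exact Measure.quasiMeasurePreserving_snd.ae h3
  filter_upwards [h1, h2] with q hq1 hq2
  unfold BR.T11.par
  rw [P1_J, norm_smul, hq2, mul_one, Real.norm_eq_abs]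
  have hc : 0 < Real.cos q.1 :=
    Real.cos_pos_of_mem_Ioo ⟨by linarith [hq1.1, Real.pi_pos], hq1.2⟩
  rw [abs_of_pos hc]
  have : Real.cos q.1 ≠ 1 := by
    intro h
    have h5 := (Real.cos_eq_one_iff_of_lt_of_lt (by linarith [hq1.1, Real.pi_pos])
      (by linarith [hq1.2, Real.pi_pos])).1 h
    linarith [hq1.1]
  exact lt_of_le_of_ne (Real.cos_le_one _) this

theorem T_congr {n : ℕ} (g g' : E n → ℂ) (h : ∀ᵐ z ∂(sg n), g z = g' z) (x : E n) :
    T g x = T g' x := by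
  unfold T
  apply integral_congr_ae
  filter_upwards [h] with z hz
  rw [hz]

/-- restriction to `(-1, 1)` -/
noncomputable def cut (a : ℝ → ℂ) : ℝ → ℂ := (Ioo (-1 : ℝ) 1).indicator a

theorem cut_meas (a : ℝ → ℂ) (ha : Measurable a) : Measurable (cut a) :=
  ha.indicator measurableSet_Ioo

theorem cut_le (a : ℝ → ℂ) (M : ℝ) (hM : ∀ u, ‖a u‖ ≤ M) (u : ℝ) : ‖cut a u‖ ≤ M := by
  unfold cut
  by_cases h : u ∈ Ioo (-1 : ℝ) 1
  · rw [indicator_of_mem h]; exact hM u
  · rw [indicator_of_notMem h, norm_zero]; exact (norm_nonneg _).trans (hM 0)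

theorem cut_out (a : ℝ → ℂ) (u : ℝ) (h : u ∉ Ioo (-1 : ℝ) 1) : cut a u = 0 := by
  unfold cut; rw [indicator_of_notMem h]

theorem gp_cut {m d : ℕ} (hm : 1 ≤ m) (hd : 1 ≤ d) (a : Fin m → ℝ → ℂ) (b : E d → ℂ) :
    ∀ᵐ z ∂(sg (m + d)), gp a b z = gp (fun j => cut (a j)) b z := by
  filter_upwards [P1_lt m d hm hd] with z hz
  unfold gp ten
  congr 1
  apply Finset.prod_congr rfl
  intro j _
  have h1 : |(P1 m d z) j| ≤ ‖P1 m d z‖ := by
    have := PiLp.norm_apply_le (P1 m d z) j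
    simpa using this
  have h2 : (P1 m d z) j ∈ Ioo (-1 : ℝ) 1 := by
    rw [mem_Ioo, ← abs_lt]
    exact h1.trans_lt hz
  change a j _ = (Ioo (-1 : ℝ) 1).indicator (a j) _
  rw [indicator_of_mem h2]

theorem bound_pd' (m d : ℕ) (hm : 3 ≤ m) (hd : 1 ≤ d) (p : ℝ) (hp : 2 * (m : ℝ) / (m - 1) < p)
    (hp2 : p < 2 * m) : ∃ C : ℝ, 0 < C ∧ ∀ (a : Fin m → ℝ → ℂ) (b : E d → ℂ) (M K L : ℝ),
    (∀ j, Measurable (a j)) → Measurable b → (∀ j u, ‖a j u‖ ≤ M) → (∀ y, ‖b y‖ ≤ K) →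
    0 ≤ L → (∀ y, ‖y‖ < 1 → ‖b y‖ ^ 2 * ‖y‖ ^ (d - 1) ≤ L * ‖y‖) →
    ∫⁻ z, ENNReal.ofReal (‖T (gp a b) z‖ ^ p) ≤
      ENNReal.ofReal (C * (M ^ m) ^ p * L ^ (p / 2)) := by
  obtain ⟨C, hC, h⟩ := bound_pd m d hm hd p hp hp2
  refine ⟨C, hC, ?_⟩
  intro a b M K L ha hb hM hK hL hbL
  have h1 : ∀ z, T (gp a b) z = T (gp (fun j => cut (a j)) b) z := fun z =>
    T_congr _ _ (gp_cut (by omega) hd a b) z
  simp only [h1]
  exact h (fun j => cut (a j)) b M K L (fun j => cut_meas _ (ha j)) hb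
    (fun j u => cut_le _ M (hM j) u) hK (fun j u hu => cut_out _ u hu) hL hbL

theorem ten_succ {m : ℕ} (c : Fin (m + 1) → ℝ → ℂ) (z : E (m + 1)) :
    ten c z = gp (fun j : Fin m => c (Fin.castSucc j)) (fun y : E 1 => c (Fin.last m) (y 0)) z := by
  unfold ten gp ten P1 P2
  rw [Fin.prod_univ_castSucc]
  rfl

theorem bound_last (m : ℕ) (hm : 3 ≤ m) (p : ℝ) (hp : 2 * (m : ℝ) / (m - 1) < p)
    (hp2 : p < 2 * m) (η : ℝ) (hη : 0 < η) : ∃ C : ℝ, 0 < C ∧
    ∀ (c : Fin (m + 1) → ℝ → ℂ) (M : ℝ),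
    (∀ j, Measurable (c j)) → (∀ j u, ‖c j u‖ ≤ M) → (∀ u, |u| < η → c (Fin.last m) u = 0) →
    ∫⁻ z, ENNReal.ofReal (‖T (ten c) z‖ ^ p) ≤ ENNReal.ofReal (C * (M ^ (m + 1)) ^ p) := by
  obtain ⟨C, hC, h⟩ := bound_pd' m 1 hm le_rfl p hp hp2
  refine ⟨C * (η⁻¹) ^ (p / 2), by positivity, ?_⟩
  intro c M hc hM hs
  have hM0 : 0 ≤ M := (norm_nonneg _).trans (hM (Fin.last m) 0)
  have h1 : ten c = gp (fun j : Fin m => c (Fin.castSucc j))
      (fun y : E 1 => c (Fin.last m) (y 0)) := funext fun z => ten_succ c z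
  rw [h1]
  refine (h (fun j : Fin m => c (Fin.castSucc j)) (fun y : E 1 => c (Fin.last m) (y 0)) M M
    (M ^ 2 * η⁻¹) (fun j => hc _) ((hc _).comp (by fun_prop)) (fun j u => hM _ u)
    (fun y => hM _ _) (by positivity) ?_).trans ?_
  · intro y _
    have hy : ‖y‖ = |y 0| := by
      rw [EuclideanSpace.norm_eq]
      simp [Real.sqrt_sq_eq_abs]
    simp only [Nat.sub_self, pow_zero, mul_one]
    rcases lt_or_ge |y 0| η with h2 | h2
    · rw [hs _ h2, norm_zero, hy]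
      have : (0 : ℝ) ≤ M ^ 2 * η⁻¹ * |y 0| := by positivity
      simpa using this
    · have h3 : ‖c (Fin.last m) (y 0)‖ ^ 2 ≤ M ^ 2 := by
        have := hM (Fin.last m) (y 0)
        gcongr
      refine h3.trans ?_
      rw [hy, mul_assoc]
      have h4 : 1 ≤ η⁻¹ * |y 0| := by
        rw [inv_mul_eq_div, le_div_iff₀ hη, one_mul]
        exact h2
      nlinarith [sq_nonneg M]
  · apply ENNReal.ofReal_le_ofReal
    have e1 : (M ^ 2 * η⁻¹) ^ (p / 2) = M ^ p * (η⁻¹) ^ (p / 2) := by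
      rw [Real.mul_rpow (by positivity) (by positivity), ← Real.rpow_natCast M 2,
        ← Real.rpow_mul hM0]
      congr 2
      push_cast
      ring
    have e2 : (M ^ (m + 1)) ^ p = (M ^ m) ^ p * M ^ p := by
      rw [pow_succ, Real.mul_rpow (by positivity) hM0]
    rw [e1, e2]
    apply le_of_eq
    ring

theorem bound_any (m : ℕ) (hm : 3 ≤ m) (p : ℝ) (hp : 2 * (m : ℝ) / (m - 1) < p)
    (hp2 : p < 2 * m) (η : ℝ) (hη : 0 < η) : ∃ C : ℝ, 0 < C ∧
    ∀ (c : Fin (m + 1) → ℝ → ℂ) (M : ℝ) (k : Fin (m + 1)),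
    (∀ j, Measurable (c j)) → (∀ j u, ‖c j u‖ ≤ M) → (∀ u, |u| < η → c k u = 0) →
    ∫⁻ z, ENNReal.ofReal (‖T (ten c) z‖ ^ p) ≤ ENNReal.ofReal (C * (M ^ (m + 1)) ^ p) := by
  obtain ⟨C, hC, h⟩ := bound_last m hm p hp hp2 η hη
  refine ⟨C, hC, ?_⟩
  intro c M k hc hM hs
  set σ : Equiv.Perm (Fin (m + 1)) := Equiv.swap k (Fin.last m) with hσ
  set L : E (m + 1) ≃ₗᵢ[ℝ] E (m + 1) := LinearIsometryEquiv.piLpCongrLeft 2 ℝ ℝ σ with hL
  set c' : Fin (m + 1) → ℝ → ℂ := fun i => c (σ i) with hc'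
  have h1 : ten c = fun z => ten c' (L z) := by
    funext z
    unfold ten
    rw [← Equiv.prod_comp σ (fun i => c i (z i))]
    apply Finset.prod_congr rfl
    intro i _
    simp only [hc', hL]
    congr 1
  rw [h1, T_comp_int L (ten c') (ten_meas c' (fun j => hc _)) p]
  apply h c' M (fun j => hc _) (fun j u => hM _ u)
  intro u hu
  simp only [hc', hσ, Equiv.swap_apply_right]
  exact hs u hu

/-- `c i` cut off outside `|u| < η` for `i < k`, inside for `i = k` -/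
noncomputable def piece {N : ℕ} (c : Fin N → ℝ → ℂ) (η : ℝ) (k i : Fin N) : ℝ → ℂ :=
  if i < k then {u : ℝ | |u| < η}.indicator (c i)
  else if i = k then {u : ℝ | η ≤ |u|}.indicator (c i) else c i

theorem piece_meas {N : ℕ} (c : Fin N → ℝ → ℂ) (η : ℝ) (k i : Fin N) (hc : ∀ j, Measurable (c j)) :
    Measurable (piece c η k i) := by
  unfold piece
  split_ifs
  · exact (hc i).indicator (measurableSet_lt (by fun_prop) measurable_const)
  · exact (hc i).indicator (measurableSet_le measurable_const (by fun_prop))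
  · exact hc i

theorem ind_le (s : Set ℝ) (f : ℝ → ℂ) (M : ℝ) (hM : ∀ u, ‖f u‖ ≤ M) (u : ℝ) :
    ‖s.indicator f u‖ ≤ M := by
  by_cases h : u ∈ s
  · rw [indicator_of_mem h]; exact hM u
  · rw [indicator_of_notMem h, norm_zero]; exact (norm_nonneg _).trans (hM u)

theorem piece_le {N : ℕ} (c : Fin N → ℝ → ℂ) (η : ℝ) (k i : Fin N) (M : ℝ)
    (hM : ∀ j u, ‖c j u‖ ≤ M) (u : ℝ) : ‖piece c η k i u‖ ≤ M := by
  unfold piece
  split_ifs
  · exact ind_le _ _ M (hM i) u
  · exact ind_le _ _ M (hM i) u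
  · exact hM i u

theorem piece_zero {N : ℕ} (c : Fin N → ℝ → ℂ) (η : ℝ) (k : Fin N) (u : ℝ) (hu : |u| < η) :
    piece c η k k u = 0 := by
  unfold piece
  rw [if_neg (lt_irrefl k), if_pos rfl, indicator_of_notMem]
  simpa using hu

theorem piece_sum {N : ℕ} (c : Fin N → ℝ → ℂ) (η : ℝ) (z : E N) (hz : ∃ k, η ≤ |z k|) :
    ten c z = ∑ k, ten (piece c η k) z := by
  classical
  -- the first large coordinate
  set S : Finset (Fin N) := Finset.univ.filter (fun k => η ≤ |z k|) with hS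
  have hne : S.Nonempty := by
    obtain ⟨k, hk⟩ := hz
    exact ⟨k, by simp [hS, hk]⟩
  set k0 := S.min' hne with hk0
  have h0 : η ≤ |z k0| := by
    have h5 : k0 ∈ Finset.univ.filter (fun k => η ≤ |z k|) := S.min'_mem hne
    exact (Finset.mem_filter.1 h5).2
  have hlt : ∀ k < k0, |z k| < η := by
    intro k hk
    by_contra h
    have : k ∈ S := by simp [hS, not_lt.1 h]
    exact absurd (S.min'_le k this) (not_le.2 hk)
  rw [Finset.sum_eq_single k0]
  · unfold ten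
    apply Finset.prod_congr rfl
    intro i _
    unfold piece
    split_ifs with h1 h2
    · rw [indicator_of_mem]
      exact hlt i h1
    · rw [indicator_of_mem]
      rw [h2]
      exact h0
    · rfl
  · intro k _ hk
    unfold ten
    rcases lt_or_gt_of_ne hk with h | h
    · apply Finset.prod_eq_zero (Finset.mem_univ k)
      exact piece_zero c η k _ (hlt k h)
    · apply Finset.prod_eq_zero (Finset.mem_univ k0)
      unfold piece
      rw [if_pos h, indicator_of_notMem]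
      simpa using h0
  · intro h
    exact absurd (Finset.mem_univ _) h

theorem big_coord {N : ℕ} (hN : 1 ≤ N) (z : E N) (hz : ‖z‖ = 1) :
    ∃ k, 1 / Real.sqrt N ≤ |z k| := by
  by_contra h
  push Not at h
  have hNr : (0 : ℝ) < N := by exact_mod_cast hN
  have h1 : ∑ k, (z k) ^ 2 = 1 := by
    have := EuclideanSpace.norm_sq_eq z
    rw [hz] at this
    simpa using this.symm
  have h2 : ∑ k : Fin N, (z k) ^ 2 < ∑ _k : Fin N, (1 / (N : ℝ)) := by
    apply Finset.sum_lt_sum_of_nonempty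
    · exact ⟨⟨0, by omega⟩, Finset.mem_univ _⟩
    · intro k _
      have h3 := h k
      have h4 : (z k) ^ 2 < (1 / Real.sqrt N) ^ 2 := by
        rw [← sq_abs]
        exact pow_lt_pow_left₀ h3 (abs_nonneg _) two_ne_zero
      rwa [div_pow, one_pow, Real.sq_sqrt hNr.le] at h4
  rw [h1] at h2
  simp at h2
  rw [mul_inv_cancel₀ hNr.ne'] at h2
  exact lt_irrefl _ h2

theorem T_sum {n N : ℕ} (g : Fin N → E n → ℂ) (hg : ∀ k, Measurable (g k)) (M : ℝ)
    (hM : ∀ k w, ‖g k w‖ ≤ M) (x : E n) :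
    T (fun z => ∑ k, g k z) x = ∑ k, T (g k) x := by
  have : IsFiniteMeasure (sg n) := sg_finite _
  unfold T
  simp_rw [Finset.mul_sum]
  rw [integral_finsetSum]
  intro k _
  have hm : Measurable fun z : E n => Complex.exp (-((⟪x, z⟫ : ℝ) : ℂ) * I) * g k z := by
    have h2 : Measurable fun z : E n => (⟪x, z⟫ : ℝ) := (by fun_prop : Continuous _).measurable
    exact (Complex.measurable_exp.comp ((Complex.measurable_ofReal.comp h2).neg.mul_const I)).mul
      (hg k)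
  apply Integrable.of_bound hm.aestronglyMeasurable M
  refine Filter.Eventually.of_forall fun z => ?_
  rw [norm_mul, exp_norm, one_mul]
  exact hM k z

theorem pow_sum_le {N : ℕ} (x : Fin N → ℝ) (hx : ∀ i, 0 ≤ x i) (p : ℝ) (hp : 1 ≤ p) :
    (∑ i, x i) ^ p ≤ (N : ℝ) ^ p * ∑ i, (x i) ^ p := by
  rcases Nat.eq_zero_or_pos N with h | h
  · subst h
    simp
    rw [Real.zero_rpow (by linarith)]
  · obtain ⟨k, _, hk⟩ := Finset.exists_max_image Finset.univ x ⟨⟨0, h⟩, Finset.mem_univ _⟩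
    have h1 : ∑ i, x i ≤ N * x k := by
      calc ∑ i, x i ≤ ∑ _i : Fin N, x k := Finset.sum_le_sum fun i hi => hk i hi
        _ = N * x k := by simp
    calc (∑ i, x i) ^ p ≤ (N * x k) ^ p :=
          Real.rpow_le_rpow (Finset.sum_nonneg fun i _ => hx i) h1 (by linarith)
      _ = (N : ℝ) ^ p * (x k) ^ p := Real.mul_rpow (Nat.cast_nonneg _) (hx k)
      _ ≤ _ := by
        gcongr
        exact Finset.single_le_sum (f := fun i => (x i) ^ p)
          (fun i _ => Real.rpow_nonneg (hx i) p) (Finset.mem_univ k)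

theorem bound_all (m : ℕ) (hm : 3 ≤ m) (p : ℝ) (hp : 2 * (m : ℝ) / (m - 1) < p)
    (hp2 : p < 2 * m) : ∃ C : ℝ, 0 < C ∧
    ∀ (c : Fin (m + 1) → ℝ → ℂ) (M : ℝ),
    (∀ j, Measurable (c j)) → (∀ j u, ‖c j u‖ ≤ M) →
    ∫⁻ z, ENNReal.ofReal (‖T (ten c) z‖ ^ p) ≤ ENNReal.ofReal (C * (M ^ (m + 1)) ^ p) := by
  have hmr : (3 : ℝ) ≤ m := by exact_mod_cast hm
  have hp22 : 2 ≤ p := by
    rw [div_lt_iff₀ (by linarith)] at hp
    nlinarith
  have hNr : (0 : ℝ) < ((m + 1 : ℕ) : ℝ) := by positivity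
  obtain ⟨C, hC, h⟩ := bound_any m hm p hp hp2 (1 / Real.sqrt ((m + 1 : ℕ) : ℝ)) (by positivity)
  refine ⟨((m + 1 : ℕ) : ℝ) ^ p * ((m + 1 : ℕ) * C), by positivity, ?_⟩
  intro c M hc hM
  have hM0 : 0 ≤ M := (norm_nonneg _).trans (hM (Fin.last m) 0)
  set η := 1 / Real.sqrt ((m + 1 : ℕ) : ℝ) with hη
  have hpm : ∀ k, Measurable (ten (piece c η k)) := fun k =>
    ten_meas _ (fun i => piece_meas c η k i hc)
  have h1 : ∀ z, T (ten c) z = ∑ k, T (ten (piece c η k)) z := by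
    intro z
    rw [← T_sum (fun k => ten (piece c η k)) hpm (M ^ (m + 1))
      (fun k w => ten_le _ M (fun j u => piece_le c η k j M hM u) w)]
    apply T_congr
    filter_upwards [sg_ae (m + 1)] with w hw
    exact piece_sum c η w (big_coord (by omega) w hw)
  calc ∫⁻ z, ENNReal.ofReal (‖T (ten c) z‖ ^ p)
      ≤ ∫⁻ z, ENNReal.ofReal (((m + 1 : ℕ) : ℝ) ^ p) *
        ∑ k, ENNReal.ofReal (‖T (ten (piece c η k)) z‖ ^ p) := by
        apply lintegral_mono
        intro z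
        change ENNReal.ofReal (‖T (ten c) z‖ ^ p) ≤ ENNReal.ofReal (((m + 1 : ℕ) : ℝ) ^ p) *
          ∑ k, ENNReal.ofReal (‖T (ten (piece c η k)) z‖ ^ p)
        rw [← ENNReal.ofReal_sum_of_nonneg (fun i _ => by positivity),
          ← ENNReal.ofReal_mul (by positivity)]
        apply ENNReal.ofReal_le_ofReal
        rw [h1]
        refine le_trans ?_ (pow_sum_le _ (fun i => norm_nonneg _) p (by linarith))
        apply Real.rpow_le_rpow (norm_nonneg _) (norm_sum_le _ _) (by linarith)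
    _ = ENNReal.ofReal (((m + 1 : ℕ) : ℝ) ^ p) *
        ∑ k, ∫⁻ z, ENNReal.ofReal (‖T (ten (piece c η k)) z‖ ^ p) := by
        rw [lintegral_const_mul', lintegral_finsetSum]
        · intro k _
          exact ((T_meas' _ (hpm k)).norm.pow_const p).ennreal_ofReal
        · exact ENNReal.ofReal_ne_top
    _ ≤ ENNReal.ofReal (((m + 1 : ℕ) : ℝ) ^ p) *
        ∑ _k : Fin (m + 1), ENNReal.ofReal (C * (M ^ (m + 1)) ^ p) := by
        gcongr with k _
        exact h (piece c η k) M k (fun j => piece_meas c η k j hc)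
          (fun j u => piece_le c η k j M hM u) (fun u hu => piece_zero c η k u hu)
    _ = _ := by
        rw [Finset.sum_const, Finset.card_univ, Fintype.card_fin, nsmul_eq_mul,
          ← ENNReal.ofReal_natCast (m + 1), ← ENNReal.ofReal_mul (by positivity),
          ← ENNReal.ofReal_mul (by positivity)]
        congr 1
        ring

end Pool.Agent.H438R2.PD
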